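import Pool.Agent.Lib.MP_b0b8df_co.Lin.P.russo
import Pool.Agent.Lib.MP_b0b8df_co.Lin.P.mvt
import Pool.Agent.Lib.MP_b0b8df_co.Lin.P.monop
import Pool.Agent.Lib.MP_b0b8df_co.Lin.P.cheb
import Pool.Agent.Lib.MP_b0b8df_co.Lin.P.push
import Pool.Agent.Lib.MP_b0b8df_co.Lin.P.couple
import Pool.Agent.Lib.MP_b0b8df_co.Lin.P.F2
import Pool.Agent.Lib.MP_b0b8df_co.Lin.P.F1
import Pool.Agent.Lib.MP_b0b8df_co.Lin.P.F7
import Pool.Agent.Lib.MP_b0b8df_co.Lin.P.parseval
import Pool.Agent.Lib.MP_b0b8df_co.Lin.P.complete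
import Pool.Agent.Lib.MP_b0b8df_co.Lin.P.bonami
import Pool.Agent.Lib.MP_b0b8df_co.Lin.P.deriv
import Pool.Agent.Lib.MP_b0b8df_co.Lin.P.level
import Pool.Agent.Lib.MP_b0b8df_co.Lin.P.infl
import Pool.Agent.Lib.MP_b0b8df_co.Lin.P.cond
import Pool.Agent.Lib.MP_b0b8df_co.Lin.P.frsplit
import Pool.Agent.Lib.MP_b0b8df_co.Lin.P.friedgut
import Pool.Agent.Lib.MP_b0b8df_co.Lin.P.sqdeg1
import Pool.Agent.Lib.MP_b0b8df_co.Lin.P.fknsum
import Pool.Agent.Lib.MP_b0b8df_co.Lin.P.fknW
import Pool.Agent.Lib.MP_b0b8df_co.Lin.P.fkn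
import Pool.Agent.Lib.MP_b0b8df_co.Lin.P.stab1
import Pool.Agent.Lib.MP_b0b8df_co.Lin.P.stab2
import Pool.Agent.Lib.MP_b0b8df_co.Lin.P.stab
import Pool.Agent.Lib.MP_b0b8df_co.Lin.P.j1
import Pool.Agent.Lib.MP_b0b8df_co.Lin.P.j2
import Pool.Agent.Lib.MP_b0b8df_co.Lin.P.junta
import Pool.Agent.Lib.MP_b0b8df_co.Lin.P.dens
import Pool.Agent.Lib.MP_b0b8df_co.Lin.P.tail
import Pool.Agent.Lib.MP_b0b8df_co.Lin.P.choose
import Pool.Agent.Lib.MP_b0b8df_co.Lin.P.approx
import Pool.Agent.Lib.MP_b0b8df_co.Lin.P.block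
import Pool.Agent.Lib.MP_b0b8df_co.Lin.P.perm
import Pool.Agent.Lib.MP_b0b8df_co.Lin.P.G1
import Pool.Agent.Lib.MP_b0b8df_co.Lin.P.G2a
import Pool.Agent.Lib.MP_b0b8df_co.Lin.P.G2num
import Pool.Agent.Lib.MP_b0b8df_co.Lin.P.G2
import Pool.Agent.Lib.MP_b0b8df_co.Lin.P.miss
import Pool.Agent.Lib.MP_b0b8df_co.Lin.P.bootnum
import Pool.Agent.Lib.MP_b0b8df_co.Lin.P.boot
import Pool.Agent.Lib.MP_b0b8df_co.Lin.P.linear
import Pool.Agent.Lib.MP_b0b8df_co.Lin.P.reg
import Pool.Agent.Lib.MP_b0b8df_co.Lin.P.init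
import Pool.Agent.Lib.MP_b0b8df_co.Lin.P.shadow
import Pool.Agent.Lib.MP_b0b8df_co.Lin.P.deg
import Pool.Agent.Lib.MP_b0b8df_co.Lin.P.EKR

/-!
# MP_b0b8df_co, linear range: all pieces put together
-/

set_option autoImplicit false

namespace Pool.Agent.Lib.MP_b0b8df_co.Lin

theorem all_russo : S_russo := p_russo
theorem all_mvt : S_mvt := p_mvt all_russo
theorem all_monop : S_monop := p_monop
theorem all_cheb : S_cheb := p_cheb
theorem all_push : S_push := p_push
theorem all_couple : S_couple := p_couple all_push all_cheb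
theorem all_F2 : S_F2 := p_F2 all_push
theorem all_F1 : S_F1 := p_F1
theorem all_F7 : S_F7 := p_F7 all_F1 all_F2
theorem all_parseval : S_parseval := p_parseval
theorem all_complete : S_complete := p_complete
theorem all_bonami : S_bonami := p_bonami
theorem all_deriv : S_deriv := p_deriv
theorem all_level : S_level := p_level all_parseval all_bonami
theorem all_infl : S_infl := p_infl all_parseval all_deriv
theorem all_cond : S_cond := p_cond all_parseval
theorem all_frsplit : S_frsplit := p_frsplit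
theorem all_friedgut : S_friedgut := p_friedgut all_complete all_deriv all_level all_infl all_cond all_frsplit
theorem all_sqdeg1 : S_sqdeg1 := p_sqdeg1
theorem all_fknsum : S_fknsum := p_fknsum
theorem all_fknW : S_fknW := p_fknW all_parseval all_bonami all_sqdeg1
theorem all_fkn : S_fkn := p_fkn all_fknW all_fknsum
theorem all_stab1 : S_stab1 := p_stab1 all_mvt all_monop all_F7
theorem all_stab2 : S_stab2 := p_stab2 all_complete all_infl all_cond all_fkn
theorem all_stab : S_stab := p_stab all_stab1 all_stab2 all_monop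
theorem all_j1 : S_j1 := p_j1 all_couple
theorem all_j2 : S_j2 := p_j2
theorem all_junta : S_junta := p_junta all_stab all_friedgut all_j1 all_j2
theorem all_dens : S_dens := p_dens
theorem all_tail : S_tail := p_tail all_cheb
theorem all_choose : S_choose := p_choose all_mvt all_dens all_tail
theorem all_approx : S_approx := p_approx all_junta all_choose all_dens all_tail
theorem all_block : S_block := p_block
theorem all_perm : S_perm := p_perm
theorem all_G1 : S_G1 := p_G1 all_block all_perm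
theorem all_G2a : S_G2a := p_G2a
theorem all_G2num : S_G2num := p_G2num
theorem all_G2 : S_G2 := p_G2 all_G2a all_G2num
theorem all_miss : S_miss := p_miss
theorem all_bootnum : S_bootnum := p_bootnum
theorem all_boot : S_boot := p_boot all_G1 all_G2 all_miss all_bootnum
theorem all_linear : S_linear := p_linear all_approx all_boot
theorem all_reg : S_reg := p_reg
theorem all_init : S_init := p_init
theorem all_shadow : S_shadow := p_shadow all_reg all_init
theorem all_deg : S_deg := p_deg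
theorem all_EKR : S_EKR := p_EKR all_shadow all_deg all_miss

end Pool.Agent.Lib.MP_b0b8df_co.Lin
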