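import Mathlib

/-!
# MP_b0b8df_co, linear range: definitions and basic lemmas

`ex p U φ` is the expectation of `φ` over a random subset of `U` which contains every element
independently with probability `p`.
-/

set_option autoImplicit false
set_option linter.unusedSectionVars false

namespace Pool.Agent.Lib.MP_b0b8df_co.Lin

open Finset

variable {α : Type} [DecidableEq α]

/-- `p`-biased expectation over the subsets of `U`. -/
noncomputable def ex (p : ℝ) (U : Finset α) (φ : Finset α → ℝ) : ℝ :=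
  ∑ S ∈ U.powerset, p ^ S.card * (1 - p) ^ (U.card - S.card) * φ S

/-- discrete derivative -/
def D (i : α) (φ : Finset α → ℝ) (S : Finset α) : ℝ := φ (insert i S) - φ (S.erase i)

/-- values `0` and `1` -/
def Bool01 (φ : Finset α → ℝ) : Prop := ∀ S, φ S = 0 ∨ φ S = 1

/-- `g` is `(d+1)`-wise intersecting on the subsets of `J` -/
def WiseInt (d : ℕ) (J : Finset α) (g : Finset α → ℝ) : Prop :=
  ∀ S : Fin (d + 1) → Finset α, (∀ i, S i ⊆ J) → (∀ i, g (S i) = 1) → ∃ e, ∀ i, e ∈ S i

/-- the character of `i` -/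
def ps (p : ℝ) (i : α) (S : Finset α) : ℝ := (if i ∈ S then 1 else 0) - p

/-- the character of `T` -/
def chi (p : ℝ) (T S : Finset α) : ℝ := ∏ i ∈ T, ps p i S

/-- the polynomial with the coefficients `c T`, `T ⊆ U` -/
def pl (p : ℝ) (c : Finset α → ℝ) (U S : Finset α) : ℝ := ∑ T ∈ U.powerset, c T * chi p T S

/-- `∑ T ⊆ U, c T ^ 2 * s ^ |T|` over the `T` satisfying `P` -/
noncomputable def sqs (s : ℝ) (U : Finset α) (P : Finset α → Prop) (c : Finset α → ℝ) : ℝ :=
  by classical exact ∑ T ∈ U.powerset with P T, c T ^ 2 * s ^ T.card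

/-- the up-closure of a family -/
noncomputable def up (F : Finset (Finset α)) (S : Finset α) : ℝ :=
  by classical exact if ∃ A ∈ F, A ⊆ S then 1 else 0

/-- no tuple with empty common intersection and small union -/
def TupleFree {n : ℕ} (d k : ℕ) (ζ : ℝ) (F : Finset (Finset (Fin n))) : Prop :=
  ∀ C : Fin (d + 1) → Finset (Fin n), (∀ i, C i ∈ F) → (∀ y, ∃ i, y ∉ C i) →
    ¬ ((Finset.univ.biUnion C).card : ℝ) ≤ (1 + 1 / (d : ℝ)) * k + ζ * k

/-- the conditional expectation of `f` given the part `R ⊆ J` -/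
noncomputable def mm (p : ℝ) (U J : Finset α) (f : Finset α → ℝ) (R : Finset α) : ℝ :=
  ex p (U \ J) (fun S => f (R ∪ S))

/-- the rounded conditional expectation -/
noncomputable def gg (d : ℕ) (p : ℝ) (U J : Finset α) (f : Finset α → ℝ) (R : Finset α) : ℝ :=
  if 1 - 1 / ((d : ℝ) + 2) ≤ mm p U J f R then 1 else 0

/-- no `d + 1` subsets `S i` of `U` with `f (S i) = 1`, empty common intersection and union of size
at most `X` -/
def NC (d : ℕ) (U : Finset α) (X : ℝ) (f : Finset α → ℝ) : Prop :=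
  ∀ S : Fin (d + 1) → Finset α, (∀ i, S i ⊆ U) → (∀ i, f (S i) = 1) → (∀ e, ∃ i, e ∉ S i) →
    ¬ ((Finset.univ.biUnion S).card : ℝ) ≤ X

/-! ## Basic lemmas on `ex` -/

@[simp]
lemma ex_empty (p : ℝ) (φ : Finset α → ℝ) : ex p ∅ φ = φ ∅ := by
  simp [ex]

lemma ex_insert {p : ℝ} {U : Finset α} {x : α} (hx : x ∉ U) (φ : Finset α → ℝ) :
    ex p (insert x U) φ = p * ex p U (fun S => φ (insert x S)) + (1 - p) * ex p U φ := by
  unfold ex
  rw [Finset.sum_powerset_insert hx, add_comm, Finset.mul_sum, Finset.mul_sum]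
  congr 1
  · apply Finset.sum_congr rfl
    intro S hS
    rw [Finset.mem_powerset] at hS
    have hxS : x ∉ S := fun h => hx (hS h)
    have hc := Finset.card_le_card hS
    rw [Finset.card_insert_of_notMem hx, Finset.card_insert_of_notMem hxS]
    have : U.card + 1 - (S.card + 1) = U.card - S.card := by omega
    rw [this]; ring
  · apply Finset.sum_congr rfl
    intro S hS
    rw [Finset.mem_powerset] at hS
    have hc := Finset.card_le_card hS
    rw [Finset.card_insert_of_notMem hx]
    have : U.card + 1 - S.card = (U.card - S.card) + 1 := by omega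
    rw [this]; ring

lemma ex_congr {p : ℝ} {U : Finset α} {φ ψ : Finset α → ℝ} (h : ∀ S ⊆ U, φ S = ψ S) :
    ex p U φ = ex p U ψ := by
  unfold ex
  apply Finset.sum_congr rfl
  intro S hS
  rw [h S (Finset.mem_powerset.1 hS)]

lemma ex_mono {p : ℝ} (hp0 : 0 ≤ p) (hp1 : p ≤ 1) {U : Finset α} {φ ψ : Finset α → ℝ}
    (h : ∀ S ⊆ U, φ S ≤ ψ S) : ex p U φ ≤ ex p U ψ := by
  unfold ex
  apply Finset.sum_le_sum
  intro S hS
  have : 0 ≤ 1 - p := by linarith
  exact mul_le_mul_of_nonneg_left (h S (Finset.mem_powerset.1 hS)) (by positivity)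

lemma ex_nonneg {p : ℝ} (hp0 : 0 ≤ p) (hp1 : p ≤ 1) {U : Finset α} {φ : Finset α → ℝ}
    (h : ∀ S ⊆ U, 0 ≤ φ S) : 0 ≤ ex p U φ := by
  unfold ex
  apply Finset.sum_nonneg
  intro S hS
  have : 0 ≤ 1 - p := by linarith
  have := h S (Finset.mem_powerset.1 hS)
  positivity

lemma ex_add {p : ℝ} {U : Finset α} (φ ψ : Finset α → ℝ) :
    ex p U (fun S => φ S + ψ S) = ex p U φ + ex p U ψ := by
  unfold ex
  rw [← Finset.sum_add_distrib]
  exact Finset.sum_congr rfl fun S _ => by ring

lemma ex_sub {p : ℝ} {U : Finset α} (φ ψ : Finset α → ℝ) :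
    ex p U (fun S => φ S - ψ S) = ex p U φ - ex p U ψ := by
  unfold ex
  rw [← Finset.sum_sub_distrib]
  exact Finset.sum_congr rfl fun S _ => by ring

lemma ex_mul_left {p : ℝ} {U : Finset α} (c : ℝ) (φ : Finset α → ℝ) :
    ex p U (fun S => c * φ S) = c * ex p U φ := by
  unfold ex
  rw [Finset.mul_sum]
  exact Finset.sum_congr rfl fun S _ => by ring

lemma ex_const {p : ℝ} (c : ℝ) : ∀ U : Finset α, ex p U (fun _ => c) = c := by
  intro U
  induction U using Finset.induction_on with
  | empty => simp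
  | insert x U hx ih => rw [ex_insert hx, ih]; ring

lemma ex_sum {p : ℝ} {U : Finset α} {ι : Type} (s : Finset ι) (φ : ι → Finset α → ℝ) :
    ex p U (fun S => ∑ i ∈ s, φ i S) = ∑ i ∈ s, ex p U (φ i) := by
  unfold ex
  rw [Finset.sum_comm]
  exact Finset.sum_congr rfl fun S _ => by rw [Finset.mul_sum]

lemma ex_le_one {p : ℝ} (hp0 : 0 ≤ p) (hp1 : p ≤ 1) {U : Finset α} {φ : Finset α → ℝ}
    (h : ∀ S ⊆ U, φ S ≤ 1) : ex p U φ ≤ 1 := by
  have := ex_mono hp0 hp1 (U := U) (φ := φ) (ψ := fun _ => 1) h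
  rwa [ex_const] at this

/-- iterated expectation -/
lemma ex_union {p : ℝ} {J : Finset α} (φ : Finset α → ℝ) : ∀ W : Finset α, Disjoint J W →
    ex p (J ∪ W) φ = ex p J (fun R => ex p W (fun S => φ (R ∪ S))) := by
  intro W
  induction W using Finset.induction_on generalizing φ with
  | empty => intro _; simp
  | insert x W hx ih =>
    intro hd
    rw [Finset.disjoint_insert_right] at hd
    have h1 : x ∉ J ∪ W := by
      rw [Finset.mem_union]; push Not; exact ⟨hd.1, hx⟩
    rw [Finset.union_insert, ex_insert h1, ih _ hd.2, ih _ hd.2, ← ex_mul_left, ← ex_mul_left,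
      ← ex_add]
    apply ex_congr
    intro R _
    rw [ex_insert hx]
    simp only [Finset.union_insert]

lemma ex_split {p : ℝ} {J U : Finset α} (hJ : J ⊆ U) (φ : Finset α → ℝ) :
    ex p U φ = ex p J (fun R => ex p (U \ J) (fun S => φ (R ∪ S))) := by
  have h := ex_union (p := p) (J := J) φ (U \ J) Finset.disjoint_sdiff
  rwa [Finset.union_sdiff_of_subset hJ] at h

lemma ex_erase {p : ℝ} {U : Finset α} {x : α} (hx : x ∈ U) (φ : Finset α → ℝ) :
    ex p U φ = p * ex p (U.erase x) (fun S => φ (insert x S)) + (1 - p) * ex p (U.erase x) φ := by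
  rw [← ex_insert (Finset.notMem_erase x U), Finset.insert_erase hx]

/-- Cauchy-Schwarz -/
lemma ex_cs {p : ℝ} (hp0 : 0 ≤ p) (hp1 : p ≤ 1) {U : Finset α} (φ ψ : Finset α → ℝ) :
    ex p U (fun S => φ S * ψ S) ^ 2 ≤
      ex p U (fun S => φ S ^ 2) * ex p U (fun S => ψ S ^ 2) := by
  unfold ex
  have h1 : 0 ≤ 1 - p := by linarith
  have h := Finset.sum_mul_sq_le_sq_mul_sq U.powerset
    (fun S => Real.sqrt (p ^ S.card * (1 - p) ^ (U.card - S.card)) * φ S)
    (fun S => Real.sqrt (p ^ S.card * (1 - p) ^ (U.card - S.card)) * ψ S)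
  have e : ∀ S : Finset α, Real.sqrt (p ^ S.card * (1 - p) ^ (U.card - S.card)) *
      Real.sqrt (p ^ S.card * (1 - p) ^ (U.card - S.card)) =
      p ^ S.card * (1 - p) ^ (U.card - S.card) := fun S => Real.mul_self_sqrt (by positivity)
  have e1 : ∀ S : Finset α, Real.sqrt (p ^ S.card * (1 - p) ^ (U.card - S.card)) * φ S *
      (Real.sqrt (p ^ S.card * (1 - p) ^ (U.card - S.card)) * ψ S) =
      p ^ S.card * (1 - p) ^ (U.card - S.card) * (φ S * ψ S) := fun S => by
    rw [mul_mul_mul_comm, e S]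
  have e2 : ∀ (θ : Finset α → ℝ) (S : Finset α),
      (Real.sqrt (p ^ S.card * (1 - p) ^ (U.card - S.card)) * θ S) ^ 2 =
      p ^ S.card * (1 - p) ^ (U.card - S.card) * θ S ^ 2 := fun θ S => by
    rw [mul_pow, pow_two (Real.sqrt _), e S]
  simp only [e1, e2] at h
  exact h

lemma sqs_nonneg {s : ℝ} (hs : 0 ≤ s) (U : Finset α) (P : Finset α → Prop)
    (c : Finset α → ℝ) : 0 ≤ sqs s U P c := by
  classical
  unfold sqs
  exact Finset.sum_nonneg fun T _ => by positivity

lemma sqs_mono {s : ℝ} (hs : 0 ≤ s) (U : Finset α) {P Q : Finset α → Prop}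
    (h : ∀ T ⊆ U, P T → Q T) (c : Finset α → ℝ) : sqs s U P c ≤ sqs s U Q c := by
  classical
  unfold sqs
  apply Finset.sum_le_sum_of_subset_of_nonneg
  · intro T hT
    rw [Finset.mem_filter, Finset.mem_powerset] at hT ⊢
    exact ⟨hT.1, h T hT.1 hT.2⟩
  · intro T _ _
    positivity

lemma sqs_add_not (s : ℝ) (U : Finset α) (P Q : Finset α → Prop) (c : Finset α → ℝ) :
    sqs s U (fun T => P T ∧ Q T) c + sqs s U (fun T => P T ∧ ¬ Q T) c = sqs s U P c := by
  classical
  unfold sqs
  have h := Finset.sum_filter_add_sum_filter_not (U.powerset.filter P) Q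
    (fun T => c T ^ 2 * s ^ T.card)
  rw [Finset.filter_filter, Finset.filter_filter] at h
  convert h using 3 <;> (ext T; simp)

lemma sqs_insert {s : ℝ} {U : Finset α} {x : α} (hx : x ∉ U) (P : Finset α → Prop)
    (c : Finset α → ℝ) :
    sqs s (insert x U) P c = sqs s U P c +
      s * sqs s U (fun T => P (insert x T)) (fun T => c (insert x T)) := by
  classical
  unfold sqs
  rw [Finset.sum_filter, Finset.sum_powerset_insert hx, Finset.sum_filter, Finset.sum_filter,
    Finset.mul_sum]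
  congr 1
  apply Finset.sum_congr rfl
  intro T hT
  rw [Finset.mem_powerset] at hT
  have hxT : x ∉ T := fun h => hx (hT h)
  rw [Finset.card_insert_of_notMem hxT]
  split_ifs
  · rw [pow_succ]; ring
  · ring

/-! ## Basic lemmas on `chi`, `pl` -/

@[simp]
lemma chi_empty (p : ℝ) (S : Finset α) : chi p ∅ S = 1 := by simp [chi]

lemma chi_insert {p : ℝ} {T : Finset α} {x : α} (hx : x ∉ T) (S : Finset α) :
    chi p (insert x T) S = ps p x S * chi p T S := by
  simp [chi, Finset.prod_insert hx]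

lemma chi_insert_right {p : ℝ} {T : Finset α} {x : α} (hx : x ∉ T) (S : Finset α) :
    chi p T (insert x S) = chi p T S := by
  unfold chi ps
  apply Finset.prod_congr rfl
  intro i hi
  have : i ≠ x := fun h => hx (h ▸ hi)
  simp [Finset.mem_insert, this]

lemma chi_erase_right {p : ℝ} {T : Finset α} {x : α} (hx : x ∉ T) (S : Finset α) :
    chi p T (S.erase x) = chi p T S := by
  unfold chi ps
  apply Finset.prod_congr rfl
  intro i hi
  have : i ≠ x := fun h => hx (h ▸ hi)
  simp [Finset.mem_erase, this]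

lemma pl_insert {p : ℝ} {c : Finset α → ℝ} {U : Finset α} {x : α} (hx : x ∉ U)
    (S : Finset α) : pl p c (insert x U) S =
      pl p c U S + ps p x S * pl p (fun T => c (insert x T)) U S := by
  unfold pl
  rw [Finset.sum_powerset_insert hx, Finset.mul_sum]
  congr 1
  apply Finset.sum_congr rfl
  intro T hT
  rw [Finset.mem_powerset] at hT
  rw [chi_insert (fun h => hx (hT h))]
  ring

lemma pl_insert_right {p : ℝ} {c : Finset α → ℝ} {U : Finset α} {x : α} (hx : x ∉ U)
    (S : Finset α) : pl p c U (insert x S) = pl p c U S := by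
  unfold pl
  apply Finset.sum_congr rfl
  intro T hT
  rw [Finset.mem_powerset] at hT
  rw [chi_insert_right (fun h => hx (hT h))]

lemma pl_congr {p : ℝ} {c c' : Finset α → ℝ} {U : Finset α} (h : ∀ T ⊆ U, c T = c' T)
    (S : Finset α) : pl p c U S = pl p c' U S := by
  unfold pl
  apply Finset.sum_congr rfl
  intro T hT
  rw [h T (Finset.mem_powerset.1 hT)]

lemma pl_add {p : ℝ} (c c' : Finset α → ℝ) (U S : Finset α) :
    pl p (fun T => c T + c' T) U S = pl p c U S + pl p c' U S := by
  unfold pl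
  rw [← Finset.sum_add_distrib]
  exact Finset.sum_congr rfl fun T _ => by ring

/-- `E g = p E g(insert x .) + (1 - p) E g`, `E (ps * g) = 0` for `g` not depending on `x` -/
lemma ex_insert_ps {p : ℝ} {U : Finset α} {x : α} (hx : x ∉ U) (m : ℕ) (g : Finset α → ℝ)
    (hg : ∀ S ⊆ U, g (insert x S) = g S) :
    ex p (insert x U) (fun S => ps p x S ^ m * g S) =
      (p * (1 - p) ^ m + (1 - p) * (-p) ^ m) * ex p U g := by
  rw [ex_insert hx]
  have h1 : ex p U (fun S => ps p x (insert x S) ^ m * g (insert x S)) =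
      (1 - p) ^ m * ex p U g := by
    rw [← ex_mul_left]
    apply ex_congr
    intro S hS
    rw [hg S hS]
    simp [ps]
  have h2 : ex p U (fun S => ps p x S ^ m * g S) = (-p) ^ m * ex p U g := by
    rw [← ex_mul_left]
    apply ex_congr
    intro S hS
    have : x ∉ S := fun h => hx (hS h)
    simp [ps, this]
  rw [h1, h2]; ring

lemma up_bool (F : Finset (Finset α)) : Bool01 (up F) := by
  classical
  intro S
  unfold up
  split_ifs
  · right; rfl
  · left; rfl

lemma up_monotone (F : Finset (Finset α)) : Monotone (up F) := by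
  classical
  intro S T h
  unfold up
  split_ifs with h1 h2
  · exact le_rfl
  · exact absurd (by obtain ⟨A, hA, hAS⟩ := h1; exact ⟨A, hA, hAS.trans h⟩) h2
  · exact zero_le_one
  · exact le_rfl

lemma up_eq_one {F : Finset (Finset α)} {S : Finset α} : up F S = 1 ↔ ∃ A ∈ F, A ⊆ S := by
  classical
  unfold up
  split_ifs with h
  · simp [h]
  · simp [h]

end Pool.Agent.Lib.MP_b0b8df_co.Lin
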