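import Pool.Agent.Lib.MP_b0b8df_co.Lin.Defs

/-!
# MP_b0b8df_co, linear range: the statements of the pieces, with complete proofs in the docstrings

Every piece `S_x` is to be proved as `theorem p_x ... : S_x` in the file `Lin/P/x.lean`.
-/

set_option autoImplicit false
set_option linter.unusedVariables false

namespace Pool.Agent.Lib.MP_b0b8df_co.Lin

open Finset

/-! ## Block P: probability -/

/-- Russo formula.
Proof. Induction on `U` generalizing `φ` (`Finset.induction_on`). Empty: `ex q ∅ φ` is constant.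
Step: by `ex_insert` the function is `q * A q + (1 - q) * B q`, `A q = ex q U (φ (insert x .))`,
`B q = ex q U φ`, with derivative `A p - B p + p * A' + (1 - p) * B'` (HasDerivAt.mul, add,
the induction hypothesis for both functions). On the other side
`∑ i ∈ insert x U` = (term `i = x`) + `∑ i ∈ U`. For `S ⊆ U`: `D x φ (insert x S) = φ (insert x S) - φ S`
and `D x φ S = φ (insert x S) - φ S`, so `ex p (insert x U) (D x φ) = A p - B p`
(`ex_insert`, `ex_congr`, `ex_sub`). For `i ∈ U` (so `i ≠ x`) and `S ⊆ U`: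
`D i φ (insert x S) = D i (fun T => φ (insert x T)) S` (Finset.insert_comm,
Finset.erase_insert_of_ne), so `ex p (insert x U) (D i φ) = p * ex p U (D i (φ (insert x .))) +
(1 - p) * ex p U (D i φ)`. -/
def S_russo : Prop := ∀ (α : Type) [DecidableEq α] (U : Finset α) (φ : Finset α → ℝ) (p : ℝ),
  HasDerivAt (fun q => ex q U φ) (∑ i ∈ U, ex p U (D i φ)) p

/-- Mean value theorem for `ex`. Proof: `exists_hasDerivAt_eq_slope` and `S_russo` (dependency). -/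
def S_mvt : Prop := ∀ (α : Type) [DecidableEq α] (U : Finset α) (φ : Finset α → ℝ) (a b : ℝ),
  a < b → ∃ r ∈ Set.Ioo a b, (∑ i ∈ U, ex r U (D i φ)) * (b - a) = ex b U φ - ex a U φ

/-- Monotonicity in `p`.
Proof. Induction on `U` generalizing `φ`; `A_p = ex p U (φ (insert x .)) ≥ B_p = ex p U φ`
(`ex_mono`), and `p * A_p + (1 - p) * B_p ≤ p * A_q + (1 - p) * B_q ≤ q * A_q + (1 - q) * B_q`
(`φ (insert x .)` is monotone again: Finset.insert_subset_insert). -/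
def S_monop : Prop := ∀ (α : Type) [DecidableEq α] (U : Finset α) (φ : Finset α → ℝ) (p q : ℝ),
  Monotone φ → 0 ≤ p → p ≤ q → q ≤ 1 → ex p U φ ≤ ex q U φ

/-- Variance of the cardinality, and Chebyshev.
Proof of the first part: induction on `U`; for `insert x U` use `ex_insert`, and for `S ⊆ U`
(so `x ∉ S`, card of `insert x S` is `card S + 1`), with `a = card S - p * card U`:
`p * (a + 1 - p) ^ 2 + (1 - p) * (a - p) ^ 2 = a ^ 2 + p * (1 - p)` (ring); so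
`ex (insert x U) .. = ex U (a ^ 2 + p (1 - p))`, `ex_add`, `ex_const`.
Second part: the indicator is at most `(card S - p * card U) ^ 2 / t ^ 2` (`ex_mono`,
`ex_mul_left`), and `p * (1 - p) ≤ 1 / 4`. -/
def S_cheb : Prop := ∀ (α : Type) [DecidableEq α] (U : Finset α) (p : ℝ),
  ex p U (fun S => ((S.card : ℝ) - p * U.card) ^ 2) = U.card * (p * (1 - p)) ∧
  ∀ t : ℝ, 0 ≤ p → p ≤ 1 → 0 < t →
    ex p U (fun S => if t ≤ |(S.card : ℝ) - p * U.card| then 1 else 0) ≤ U.card / (4 * t ^ 2)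

/-- The law of `{e ∈ W : b (c e)}` for i.i.d. `c e` with the law `w`.
Proof. Put `P = ∑ o with b o, w o`, so `∑ o with ¬ b o, w o = 1 - P`. Group the functions `c` by the
set `S = W.filter (b ∘ c) ⊆ W` (Finset.sum_fiberwise_of_maps_to with maps to `W.powerset`). For
`S ⊆ W` the functions with `W.filter (b ∘ c) = S` form `Fintype.piFinset t` with
`t e = if e ∈ S then univ.filter b else if e ∈ W then univ.filter (not b) else univ`, and
`Finset.prod_univ_sum` gives `∑ c ∈ piFinset t, ∏ e, w (c e) = ∏ e, ∑ o ∈ t e, w o =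
P ^ card S * (1 - P) ^ (card W - card S)` (the factors are `P` for `e ∈ S`, `1 - P` for `e ∈ W \ S`,
`1` otherwise; Finset.prod_ite / Finset.prod_pow_boole / card_sdiff). -/
def S_push : Prop := ∀ (α : Type) [DecidableEq α] [Fintype α] (O : Type) [DecidableEq O] [Fintype O]
  (w : O → ℝ) (b : O → Prop) [DecidablePred b] (W : Finset α) (φ : Finset α → ℝ),
  ∑ o, w o = 1 →
  ∑ c : α → O, (∏ e, w (c e)) * φ (W.filter fun e => b (c e)) = ex (∑ o with b o, w o) W φ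

/-- Coupling. Dependencies: `S_push`, `S_cheb`.
Proof. `O = Option (Fin (d + 1))`, `w none = 1 - (d + 1) * p / d ≥ 0`, `w (some i) = p / d ≥ 0`,
`∑ w = 1` (Fintype.sum_option). For `c : α → O` put
`T i c = W.filter (fun e => c e ≠ none ∧ c e ≠ some i)` (by `S_push` its law is `ex p W`, since
`d * (p / d) = p`) and `V c = W.filter (fun e => c e ≠ none)` (law `ex p' W`, `p' = (d + 1) p / d`).
Suppose that no `S` is as claimed. Then for every `c`: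
`1 ≤ ∑ i, (1 - φ i (T i c)) + (if t ≤ |card (V c) - p' * card W| then 1 else 0)`:
otherwise all `φ i (T i c) = 1` (Bool01) and `|card (V c) - p' * card W| < t`, and `S i = T i c`
is as claimed: `e ∈ S i` for all `i` says `c e ≠ none` and `c e ≠ some i` for all `i`, impossible;
the union is contained in `V c`. Multiply by `∏ e, w (c e) ≥ 0` and sum over `c`
(`∑ c, ∏ e, w (c e) = 1`: `S_push` with `φ = 1` and `ex_const`):
`1 ≤ ∑ i, (1 - ex p W (φ i)) + ex p' W (indicator) ≤ (d + 1) * θ + card W / (4 t ^ 2) < 1`. -/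
def S_couple : Prop := ∀ (α : Type) [DecidableEq α] [Fintype α] (d : ℕ) (W : Finset α)
  (p θ t : ℝ) (φ : Fin (d + 1) → Finset α → ℝ), 1 ≤ d → 0 ≤ p → ((d : ℝ) + 1) * p ≤ d → 0 < t →
  (∀ i, Bool01 (φ i)) → (∀ i, 1 - θ ≤ ex p W (φ i)) →
  ((d : ℝ) + 1) * θ + W.card / (4 * t ^ 2) < 1 →
  ∃ S : Fin (d + 1) → Finset α, (∀ i, S i ⊆ W) ∧ (∀ i, φ i (S i) = 1) ∧ (∀ e, ∃ i, e ∉ S i) ∧
    ((univ.biUnion S).card : ℝ) ≤ ((d : ℝ) + 1) / d * p * W.card + t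

/-- Frankl bound at `q = d / (d + 1)`. Dependency: `S_push`.
Proof. `O = Fin (d + 1)`, `w = 1 / (d + 1)`, `T i c = J.filter (fun e => c e ≠ i)` with law `ex q J`
(`d` of the `d + 1` values are allowed). For every `c` the sets `T i c` have no common element
(`e ∈ T (c e) c` is false), so not all `g (T i c) = 1` (WiseInt), hence `∑ i, g (T i c) ≤ d`
(Bool01). Multiply by `∏ w (c e) ≥ 0` and sum over `c`: `(d + 1) * ex q J g ≤ d`. -/
def S_F2 : Prop := ∀ (α : Type) [DecidableEq α] [Fintype α] (d : ℕ) (J : Finset α)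
  (g : Finset α → ℝ), 1 ≤ d → Bool01 g → WiseInt d J g →
  ex ((d : ℝ) / (d + 1)) J g ≤ (d : ℝ) / (d + 1)

/-- `μ_q(g) ≥ μ_p(g) ^ (log q / log p)`.
Proof. `α := log q / log p` satisfies `0 < α ≤ 1` and `p ^ α = q` (`log p ≤ log q < 0`;
Real.rpow_def_of_pos). Induction on `U` generalizing `g`. Empty: `g ∅` is `0` or `1`
(`Real.zero_rpow`, `Real.one_rpow`). Step: `a = ex p U (g (insert x .))`, `b = ex p U g`,
`0 ≤ b ≤ a` (monotone). Claim: `(p a + (1 - p) b) ^ α ≤ q a ^ α + (1 - q) b ^ α`; then the induction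
hypotheses `a ^ α ≤ ex q U (g (insert x .))`, `b ^ α ≤ ex q U g` finish. Claim: put
`v = p (a - b) ≥ 0`; the left side is `(b + v) ^ α`, and concavity of `y ^ α` on `[0, ∞)` gives, as
`p b ≤ b`: `(b + v) ^ α - b ^ α ≤ (p b + v) ^ α - (p b) ^ α = (p a) ^ α - (p b) ^ α =
q a ^ α - q b ^ α` (Real.mul_rpow). Concavity in this form: for `0 ≤ x ≤ y`, `0 ≤ v`,
`f y + f (x + v) ≥ f x + f (y + v)`: trivial if `v = 0` or `x = y`; else with `L = y + v - x`,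
`y = (v / L) x + ((y - x) / L) (y + v)` and `x + v = ((y - x) / L) x + (v / L) (y + v)`; use
`Real.concaveOn_rpow` twice and add. -/
def S_F1 : Prop := ∀ (α : Type) [DecidableEq α] (U : Finset α) (g : Finset α → ℝ) (p q : ℝ),
  0 < p → p ≤ q → q < 1 → Bool01 g → Monotone g →
  (ex p U g) ^ (Real.log q / Real.log p) ≤ ex q U g

/-- Frankl bound for all `q ≤ d / (d + 1)`. Dependencies: `S_F1`, `S_F2`.
Proof. `Q = d / (d + 1) < 1`, `q ≤ Q`, `m = ex q J g ∈ [0, 1]`, `β = log Q / log q > 0`: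
`m ^ β ≤ ex Q J g ≤ Q = q ^ β`, and `m > q` would give `m ^ β > q ^ β` (Real.rpow_lt_rpow). -/
def S_F7 : Prop := ∀ (α : Type) [DecidableEq α] [Fintype α] (d : ℕ) (J : Finset α)
  (g : Finset α → ℝ) (q : ℝ), 1 ≤ d → 0 < q → ((d : ℝ) + 1) * q ≤ d → Bool01 g → Monotone g →
  WiseInt d J g → ex q J g ≤ q

/-! ## Block H: harmonic analysis -/

/-- Parseval.
Proof. Induction on `U` generalizing `c`. Step: `pl_insert`, expand the square
`P ^ 2 + 2 P P' ψ + ψ ^ 2 P' ^ 2` with `ψ = ps p x`, and use `ex_add`, `ex_insert_ps` with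
`m = 0, 1, 2` (the hypothesis by `pl_insert_right`): the values are `1`, `0`, `p * (1 - p)`;
compare with `sqs_insert` (note `sqs s U (fun T => True)`). -/
def S_parseval : Prop := ∀ (α : Type) [DecidableEq α] (U : Finset α) (p : ℝ) (c : Finset α → ℝ),
  ex p U (fun S => pl p c U S ^ 2) = sqs (p * (1 - p)) U (fun _ => True) c

/-- Every function is a polynomial on the subsets of `U`.
Proof. Induction on `U` generalizing `φ`. Step: `c0` for `φ` and `c1` for `φ (insert x .)` on `U`;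
put `c T = if x ∈ T then c1 (T.erase x) - c0 (T.erase x) else p * c1 T + (1 - p) * c0 T`. For
`S ⊆ insert x U`, `R = S.erase x ⊆ U`: by `pl_insert` (with `pl_congr`, `pl_insert_right` to replace
`S` by `R`) `pl p c (insert x U) S = (p φ1 + (1 - p) φ0) + ps p x S * (φ1 - φ0)`,
`φ1 = φ (insert x R)`, `φ0 = φ R`, which is `φ1` if `x ∈ S` and `φ0` if `x ∉ S`. -/
def S_complete : Prop := ∀ (α : Type) [DecidableEq α] (U : Finset α) (p : ℝ) (φ : Finset α → ℝ),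
  ∃ c : Finset α → ℝ, ∀ S ⊆ U, φ S = pl p c U S

/-- Bonami lemma (biased, fourth moment).
Dependency: `S_parseval` is not needed if one carries `G = ex (g ^ 2)`; it is allowed.
Proof. Induction on `U` generalizing `c` and `Dg`. Empty: `pl = c ∅`, equality of
`c ∅ ^ 4 ≤ κ ^ (2 Dg) * c ∅ ^ 4` (`κ ≥ 1`). Step `insert x U`: `P = g + ψ h` with `g = pl p c U`,
`h = pl p c' U`, `c' T = c (insert x T)`, `ψ = ps p x`, `s = p (1 - p)`. If `Dg = 0` then `c' = 0` on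
`U`, `h = 0`. By `ex_insert_ps` (m = 0..4): `E ψ = 0`, `E ψ ^ 2 = s`, `|E ψ ^ 3| = s |1 - 2 p| ≤ s`,
`E ψ ^ 4 = s (1 - 3 s) ≤ s`, and
`E P ^ 4 = E g ^ 4 + 6 s E g ^ 2 h ^ 2 + 4 E ψ ^ 3 E g h ^ 3 + E ψ ^ 4 E h ^ 4`
`≤ E g ^ 4 + 8 s E g ^ 2 h ^ 2 + 3 s E h ^ 4` (because `4 |g h ^ 3| ≤ 2 g ^ 2 h ^ 2 + 2 h ^ 4`).
Induction (`c'` has degree at most `Dg - 1`): `E g ^ 4 ≤ κ ^ (2 Dg) G ^ 2`,
`E h ^ 4 ≤ κ ^ (2 (Dg - 1)) H ^ 2`, `G = sqs s U True c`, `H = sqs s U True c'`, and by `ex_cs`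
`(E g ^ 2 h ^ 2) ^ 2 ≤ E g ^ 4 E h ^ 4`, so `E g ^ 2 h ^ 2 ≤ κ ^ (2 Dg - 1) G H`. Since
`8 ≤ 2 κ` and `3 ≤ κ ^ 2 s`, the sum is at most `κ ^ (2 Dg) (G ^ 2 + 2 s G H + s ^ 2 H ^ 2)`, which is
`κ ^ (2 Dg) * (sqs s (insert x U) True c) ^ 2` by `sqs_insert`. -/
def S_bonami : Prop := ∀ (α : Type) [DecidableEq α] (U : Finset α) (p κ : ℝ) (Dg : ℕ)
  (c : Finset α → ℝ), 0 < p → p < 1 → 4 ≤ κ → 3 ≤ κ ^ 2 * (p * (1 - p)) →
  (∀ T ⊆ U, Dg < T.card → c T = 0) →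
  ex p U (fun S => pl p c U S ^ 4) ≤
    κ ^ (2 * Dg) * (sqs (p * (1 - p)) U (fun _ => True) c) ^ 2

/-- The derivative of a polynomial.
Proof. `U = insert i (U.erase i)`; `pl_insert`, at `insert i S` and at `S.erase i`
(`pl_insert_right`; for `S.erase i` the analogous fact: either `i ∉ S`, or
`S = insert i (S.erase i)` and `pl_insert_right`); `ps p i (insert i S) - ps p i (S.erase i) = 1`. -/
def S_deriv : Prop := ∀ (α : Type) [DecidableEq α] (U : Finset α) (p : ℝ) (c φ : Finset α → ℝ)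
  (i : α), i ∈ U → (∀ S ⊆ U, φ S = pl p c U S) →
  ∀ S ⊆ U, D i φ S = pl p (fun T => c (insert i T)) (U.erase i) S

/-- Level inequality for functions with values in `{-1, 0, 1}`. Dependencies: `S_parseval`,
`S_bonami`.
Proof. `c1 T = if T.card ≤ Dg then c T else 0`, `c2 T = if T.card ≤ Dg then 0 else c T`,
`P = pl p c1 U`, `Q = pl p c2 U`, `h = P + Q` on `U` (`pl_add`, `pl_congr`). Parseval for `c`, `c1`,
`c2` gives `E h ^ 2 = E P ^ 2 + E Q ^ 2`, so `E P Q = 0` and `E h P = E P ^ 2 = W` with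
`W = sqs s U (card ≤ Dg) c`. Put `δ = E h ^ 2`. As `h ^ 3 = h` and `h ^ 4 = h ^ 2`, `ex_cs` gives
`(E h P) ^ 2 = (E h (h ^ 2 P)) ^ 2 ≤ δ E (h ^ 4 P ^ 2) = δ E (h ^ 2 P ^ 2)` and
`(E h ^ 2 P ^ 2) ^ 2 ≤ E h ^ 4 E P ^ 4 = δ E P ^ 4`. So `W ^ 4 ≤ δ ^ 3 E P ^ 4 ≤ δ ^ 3 κ ^ (2 Dg) W ^ 2`
(Bonami); if `W = 0` the claim is trivial, otherwise divide by `W ^ 2`. -/
def S_level : Prop := ∀ (α : Type) [DecidableEq α] (U : Finset α) (p κ : ℝ) (Dg : ℕ)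
  (c h : Finset α → ℝ), 0 < p → p < 1 → 4 ≤ κ → 3 ≤ κ ^ 2 * (p * (1 - p)) →
  (∀ S ⊆ U, h S = pl p c U S) → (∀ S ⊆ U, h S = -1 ∨ h S = 0 ∨ h S = 1) →
  (sqs (p * (1 - p)) U (fun T => T.card ≤ Dg) c) ^ 2 ≤
    κ ^ (2 * Dg) * (ex p U (fun S => h S ^ 2)) ^ 3

/-- Total influence. Dependencies: `S_parseval`, `S_deriv`.
Proof. Part 1: for `i ∈ U`, `E (D i φ) ^ 2 = ex p U (pl p c' (U.erase i) S ^ 2)`, `c' T = c (insert i T)`
(`S_deriv`, `ex_congr`) `= ex p (U.erase i) (same)` (`ex_erase`, `pl_insert_right`)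
`= sqs s (U.erase i) True c'` (Parseval). Part 2: multiply by `s` and sum over `i`:
`s * sqs s (U.erase i) True c' = ∑ T ∈ U.powerset with i ∈ T, c T ^ 2 * s ^ T.card`
(bijection `T ↦ insert i T`; or `Finset.sum_powerset_insert` for `U = insert i (U.erase i)`), and
`∑ i ∈ U, ∑ T ∋ i = ∑ T, T.card * ..` (Finset.sum_comm, T ⊆ U). -/
def S_infl : Prop := ∀ (α : Type) [DecidableEq α] (U : Finset α) (p : ℝ) (c φ : Finset α → ℝ),
  (∀ S ⊆ U, φ S = pl p c U S) →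
  (∀ i ∈ U, ex p U (fun S => D i φ S ^ 2) =
    sqs (p * (1 - p)) (U.erase i) (fun _ => True) (fun T => c (insert i T))) ∧
  (p * (1 - p)) * ∑ i ∈ U, ex p U (fun S => D i φ S ^ 2) =
    ∑ T ∈ U.powerset, (T.card : ℝ) * (c T ^ 2 * (p * (1 - p)) ^ T.card)

/-- The conditional variance. Dependency: `S_parseval`.
Proof. (1) For `R ⊆ J`, `W` disjoint from `J`: `ex p W (fun S => pl p c (J ∪ W) (R ∪ S)) = pl p c J R`:
induction on `W`, `ex_insert`, `pl_insert` for `J ∪ insert x W = insert x (J ∪ W)`,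
`pl_insert_right`, `ps p x (R ∪ insert x S) = 1 - p`, `ps p x (R ∪ S) = - p`: the terms with `c'`
cancel. So with `W = U \ J`: `mm p U J φ R = pl p c J R`. (2) `ex p J` of the first term is `ex p U (φ ^ 2)`
(`ex_split`) `= sqs s U True c`, and `ex p J` of the second one is `sqs s J True c =
sqs s U (T ⊆ J) c` (powerset filter: `T ⊆ U ∧ T ⊆ J ↔ T ⊆ J`). (3) `sqs s U True c =
sqs s U (T ⊆ J) c + sqs s U (¬ T ⊆ J) c` (`sqs_add_not` with `P = True`). -/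
def S_cond : Prop := ∀ (α : Type) [DecidableEq α] (U J : Finset α) (p : ℝ)
  (c φ : Finset α → ℝ), J ⊆ U → (∀ S ⊆ U, φ S = pl p c U S) →
  ex p J (fun R => ex p (U \ J) (fun S => φ (R ∪ S) ^ 2) - (mm p U J φ R) ^ 2) =
    sqs (p * (1 - p)) U (fun T => ¬ T ⊆ J) c

/-- Splitting of the coefficients outside `J`.
Proof. (1) Every `T ⊆ U`, `¬ T ⊆ J`, has `Dg < T.card` or contains some `i ∈ U \ J` and
`T.card ≤ Dg`. The terms are nonnegative, so the left side is at most `sqs (Dg < card)` +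
`∑ i ∈ U \ J, ∑ T ∈ U.powerset with i ∈ T ∧ T.card ≤ Dg, c T ^ 2 s ^ T.card`, and the inner sum is at
most `s * sqs s (U.erase i) (card ≤ Dg) (c (insert i .))` (`T = insert i (T.erase i)`, the card of
`T.erase i` is `T.card - 1 ≤ Dg`). (2) is termwise: `Dg ≤ T.card` for the terms with
`Dg < T.card`. -/
def S_frsplit : Prop := ∀ (α : Type) [DecidableEq α] (U J : Finset α) (s : ℝ) (Dg : ℕ)
  (c : Finset α → ℝ), 0 ≤ s → J ⊆ U →
  sqs s U (fun T => ¬ T ⊆ J) c ≤ sqs s U (fun T => Dg < T.card) c +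
    ∑ i ∈ U \ J, s * sqs s (U.erase i) (fun T => T.card ≤ Dg) (fun T => c (insert i T)) ∧
  (Dg : ℝ) * sqs s U (fun T => Dg < T.card) c ≤
    ∑ T ∈ U.powerset, (T.card : ℝ) * (c T ^ 2 * s ^ T.card)

/-- Friedgut junta theorem. Dependencies: `S_complete`, `S_deriv`, `S_level`, `S_infl`, `S_cond`,
`S_frsplit`.
Proof. If `lam > 1 / 2` the condition on `p` is void. Otherwise `κ = 4 / lam ≥ 4`,
`s = p (1 - p) ≥ lam (1 - lam) ≥ lam / 2`, so `κ ^ 2 s ≥ 3`; also `s ≤ 1`. Choose `Dg : ℕ` with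
`Dg ≥ 1` and `2 K / ε ≤ Dg`, `θ = ε / (2 K κ ^ Dg)`, `M = ⌈K / θ ^ 2⌉₊`. Let `c` be the coefficients of `f`
(`S_complete`), `δ i = ex p U (D i f ^ 2) ≥ 0`, `J = U.filter (θ ^ 2 < δ i)`. Then
`card J * θ ^ 2 ≤ ∑ δ ≤ K`, so `card J ≤ M`. `S_cond` and `f ^ 2 = f` give
`ex p J (m (1 - m)) = sqs s U (¬ T ⊆ J) c` (`m = mm p U J f R`, `ex p (U \ J) (f (R ∪ S) ^ 2) = m`).
By `S_frsplit`, `S_infl`: `Dg * sqs (Dg < card) ≤ s * ∑ δ ≤ K`, so that part is `≤ K / Dg ≤ ε / 2`.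
For `i ∈ U \ J` put `W i = sqs s (U.erase i) (card ≤ Dg) (c (insert i .))`. `S_level` on `U.erase i`
for `h = D i f` (values in `{-1, 0, 1}`; `S_deriv` gives its expansion on `U.erase i`), and
`ex p (U.erase i) (D i f ^ 2) = ex p U (D i f ^ 2) = δ i` (`ex_erase` and
`D i f (insert i S) = D i f S`), gives `W i ^ 2 ≤ κ ^ (2 Dg) δ i ^ 3 ≤ (κ ^ Dg δ i θ) ^ 2` since
`δ i ≤ θ ^ 2`; so `W i ≤ κ ^ Dg δ i θ` and `∑ i ∈ U \ J, s W i ≤ κ ^ Dg θ K = ε / 2`. -/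
def S_friedgut : Prop := ∀ lam K ε : ℝ, 0 < lam → 0 < K → 0 < ε → ∃ M : ℕ,
  ∀ (α : Type) [DecidableEq α] (U : Finset α) (p : ℝ) (f : Finset α → ℝ),
  lam ≤ p → p ≤ 1 - lam → Bool01 f → ∑ i ∈ U, ex p U (fun S => D i f S ^ 2) ≤ K →
  ∃ J ⊆ U, J.card ≤ M ∧ ex p J (fun R => mm p U J f R * (1 - mm p U J f R)) ≤ ε

/-- The square of a polynomial of degree one.
Proof. Induction on `U`. Empty: `e T = if T = ∅ then c ∅ ^ 2 else 0`. Step: with `l` the degree one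
polynomial on `U`, `pl_insert` gives `l' = l + c {x} * ψ`, `ψ = ps p x` (the inner polynomial has
the only coefficient `c {x}` at `∅`: for `T ⊆ U`, `T ≠ ∅`, the card of `insert x T` is at least
`2`), and `ψ ^ 2 = p (1 - p) + (1 - 2 p) ψ` (both values of `ψ`). So
`l' ^ 2 = l ^ 2 + 2 c {x} ψ l + c {x} ^ 2 (s + (1 - 2 p) ψ)`, `l = c ∅ + ∑ i ∈ U, c {i} ps p i S`
(prove this formula as a lemma by induction). Take
`e' T = if T = {x} then 2 c {x} c ∅ + (1 - 2 p) c {x} ^ 2 else if T = ∅ then e ∅ + s c {x} ^ 2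
else if x ∈ T then 0 else e T`; the products `2 c {x} c {i} ψ ps p i S` are the new terms of the
second polynomial (`pl_insert`: its inner polynomial has the coefficient
`if T.card = 1 then 2 c {x} ∏ i ∈ T, c {i}`, for `T ⊆ U`; again a lemma by induction:
`pl p (fun T => if T.card = 1 then a * ∏ i ∈ T, c {i} else 0) U S = a * ∑ i ∈ U, c {i} * ps p i S`). -/
def S_sqdeg1 : Prop := ∀ (α : Type) [DecidableEq α] (U : Finset α) (p : ℝ) (c : Finset α → ℝ),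
  ∃ e : Finset α → ℝ, (∀ T, 2 ≤ T.card → e T = 0) ∧ ∀ S ⊆ U,
    (pl p (fun T => if T.card ≤ 1 then c T else 0) U S) ^ 2 =
      pl p e U S + pl p (fun T => if T.card = 2 then 2 * ∏ i ∈ T, c {i} else 0) U S

/-- Sums over the sets of size one and two.
Proof. First part: the sets `T ⊆ U` of card one are the singletons (Finset.powersetCard_one,
`Finset.sum_map`; or induction with `sqs_insert`). Second part: with `a i = c {i} ^ 2 * s`, the left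
side is `∑ T ⊆ U, card = 2, 4 ∏ i ∈ T, a i`; by induction on `U` it is `2 ((∑ a) ^ 2 - ∑ a ^ 2)`:
adding `x` adds `4 a x ∑ i ∈ U, a i` (`sqs_insert`, the first part for the coefficient
`if T.card = 1 ..`). -/
def S_fknsum : Prop := ∀ (α : Type) [DecidableEq α] (U : Finset α) (s : ℝ) (c : Finset α → ℝ),
  sqs s U (fun T => T.card = 1) c = ∑ i ∈ U, c {i} ^ 2 * s ∧
  sqs s U (fun _ => True) (fun T => if T.card = 2 then 2 * ∏ i ∈ T, c {i} else 0) =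
    2 * ((∑ i ∈ U, c {i} ^ 2 * s) ^ 2 - ∑ i ∈ U, (c {i} ^ 2 * s) ^ 2)

/-- The main step of the FKN theorem. Dependencies: `S_parseval`, `S_bonami`, `S_sqdeg1`.
Proof. `s = p (1 - p)`, `c1 T = if card ≤ 1 then c T else 0`, `c2 = c - c1`, `l = pl p c1 U`,
`h = pl p c2 U`, `f = l + h` on `U`; `r T = if card = 2 then 2 ∏ c {i} else 0`, `R = pl p r U`,
`W = E R ^ 2 = sqs s U True r` (Parseval). `E h ^ 2 = sqs s U True c2 = sqs s U (2 ≤ card) c ≤ δ`.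
`E l ^ 2 ≤ E f ^ 2 ≤ 1` (Parseval, `sqs_mono`). As `f ^ 2 = f`, `l ^ 2 - l = h (1 - l - f)`
pointwise. By `S_sqdeg1`, `l ^ 2 - l = pl p e' U + R` with `e'` supported on `card ≤ 1`, and
`E (pl p e' U * R) = 0` by Parseval for `e'`, `r`, `e' + r` (disjoint supports:
`sqs (e' + r) = sqs e' + sqs r`). So `W = E ((l ^ 2 - l) R) = E (h ((1 - l - f) R))`. `ex_cs` twice:
`W ^ 2 ≤ E h ^ 2 * E ((1 - l - f) ^ 2 R ^ 2)`, `(E ((1 - l - f) ^ 2 R ^ 2)) ^ 2 ≤ E (1 - l - f) ^ 4 * E R ^ 4`.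
`E R ^ 4 ≤ κ ^ 4 W ^ 2` (Bonami, degree 2), `E l ^ 4 ≤ κ ^ 2` (Bonami, degree 1),
`(1 - f - l) ^ 4 ≤ 8 ((1 - f) ^ 4 + l ^ 4)`, so `E (1 - l - f) ^ 4 ≤ 8 (1 + κ ^ 2) ≤ 16 κ ^ 2`.
Together `W ^ 4 ≤ δ ^ 2 * 16 κ ^ 2 * κ ^ 4 * W ^ 2`; so `W = 0` or `W ^ 2 ≤ 16 κ ^ 6 δ ^ 2`, hence
`W ≤ 4 κ ^ 3 δ` (`δ ≥ 0`). -/
def S_fknW : Prop := ∀ (α : Type) [DecidableEq α] (U : Finset α) (p κ δ : ℝ)
  (c f : Finset α → ℝ), 0 < p → p < 1 → 4 ≤ κ → 3 ≤ κ ^ 2 * (p * (1 - p)) → Bool01 f →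
  (∀ S ⊆ U, f S = pl p c U S) → sqs (p * (1 - p)) U (fun T => 2 ≤ T.card) c ≤ δ →
  sqs (p * (1 - p)) U (fun _ => True)
    (fun T => if T.card = 2 then 2 * ∏ i ∈ T, c {i} else 0) ≤ 4 * κ ^ 3 * δ

/-- FKN theorem. Dependencies: `S_fknW`, `S_fknsum`.
Proof. `a i = c {i} ^ 2 * s ≥ 0`, `A = ∑ a ≥ v > 0`, so `U` is nonempty; let `x ∈ U` maximize `a`
(Finset.exists_max_image). `∑ a ^ 2 ≤ a x * A`, and `2 (A ^ 2 - ∑ a ^ 2) ≤ 4 κ ^ 3 δ`, so
`A (A - a x) ≤ 2 κ ^ 3 δ`, `A - a x ≤ 2 κ ^ 3 δ / v` (`A - a x ≥ 0`). The sets `T ⊆ U` with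
`¬ T ⊆ {x}` have `2 ≤ card` or are `{i}` with `i ≠ x`; so
`sqs (¬ T ⊆ {x}) = sqs (2 ≤ card) + (A - a x)` (only `≤` is needed: `sqs_add_not` with
`Q = (2 ≤ card)`, `sqs_mono`, and `sqs (¬ T ⊆ {x} ∧ card = 1) = ∑ i ∈ U.erase x, a i`). -/
def S_fkn : Prop := ∀ (α : Type) [DecidableEq α] (U : Finset α) (p κ δ v : ℝ)
  (c f : Finset α → ℝ), 0 < p → p < 1 → 4 ≤ κ → 3 ≤ κ ^ 2 * (p * (1 - p)) → 0 < v → Bool01 f →
  (∀ S ⊆ U, f S = pl p c U S) → sqs (p * (1 - p)) U (fun T => 2 ≤ T.card) c ≤ δ →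
  v ≤ sqs (p * (1 - p)) U (fun T => T.card = 1) c →
  ∃ x ∈ U, sqs (p * (1 - p)) U (fun T => ¬ T ⊆ {x}) c ≤ (2 * κ ^ 3 / v + 1) * δ

/-! ## Block S: stability -/

/-- Choice of `r`. Dependencies: `S_mvt`, `S_monop`, `S_F7`.
Proof. `S_mvt` on `[p, p + δ]`: `r` with `(∑ ..) * δ = ex (p + δ) J g - ex p J g ≤ (p + δ) - (p - δ ^ 2)`
(`S_F7` at `p + δ`), so `∑ ≤ 1 + δ`. `ex r J g ≥ ex p J g ≥ p - δ ^ 2 ≥ r - δ - δ ^ 2 ≥ r - 2 δ`
(`S_monop`; note `p + δ ≤ 1`), and `ex r J g ≤ r` (`S_F7` at `r`). -/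
def S_stab1 : Prop := ∀ (α : Type) [DecidableEq α] [Fintype α] (d : ℕ) (J : Finset α)
  (g : Finset α → ℝ) (p δ : ℝ), 1 ≤ d → 0 < p → 0 < δ → δ ≤ 1 → ((d : ℝ) + 1) * (p + δ) ≤ d →
  Bool01 g → Monotone g → WiseInt d J g → p - δ ^ 2 ≤ ex p J g →
  ∃ r : ℝ, p ≤ r ∧ r ≤ p + δ ∧ ∑ i ∈ J, ex r J (D i g) ≤ 1 + δ ∧
    r - 2 * δ ≤ ex r J g ∧ ex r J g ≤ r

/-- Functions which almost attain the bound. Dependencies: `S_complete`, `S_infl`, `S_cond`,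
`S_fkn`.
Proof. `κ = 4 / lam`, `δ0 = min (lam / 20) (η * lam ^ 2 / (3 * (8 * κ ^ 3 / lam + 1)))`.
Let `s = r (1 - r)`; `s ≥ lam (1 - lam) ≥ lam / 2` and `s ≤ 1 / 4`, `κ ^ 2 s ≥ 3`. `c` = coefficients of
`g` at `r` (`S_complete`). `D i g` has values `0, 1` (monotone and Bool01), so
`ex r J (D i g) = ex r J (D i g ^ 2)`. `m = ex r J g`. `S_cond` with `J := ∅` and `g ^ 2 = g`:
`m - m ^ 2 = sqs s J (¬ T ⊆ ∅) c` (`mm r J ∅ g ∅ = m`). `S_infl`: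
`∑ T, card T * c T ^ 2 s ^ card T = s ∑ .. ≤ s (1 + δ)`. Termwise
`card T ≥ [¬ T ⊆ ∅] + [2 ≤ card T]`, so `sqs (2 ≤ card) ≤ s (1 + δ) - (m - m ^ 2)`. As
`r - 2 δ ≤ m ≤ r` and `0 ≤ m`, `r < 1`: `m (1 - m) - s = (m - r) (1 - m - r) ≥ - 2 δ`. So
`sqs (2 ≤ card) ≤ s δ + 2 δ ≤ 3 δ`, and `sqs (card = 1) = (m - m ^ 2) - sqs (2 ≤ card) ≥ s - 5 δ ≥
lam / 2 - 5 δ ≥ lam / 4`. `S_fkn` with `v = lam / 4`, `3 δ`: `x ∈ J` with
`sqs (¬ T ⊆ {x}) ≤ ε1 := (8 κ ^ 3 / lam + 1) * (3 δ)`. `S_cond` with `J := {x}`: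
`ex r {x} (m_R - m_R ^ 2) = r m_1 (1 - m_1) + (1 - r) m_0 (1 - m_0) ≤ ε1` (`ex_insert` for `{x}`),
`m_0 = ex r (J.erase x) g` (`J \ {x} = J.erase x`), `m_1 = ex r (J.erase x) (g (insert x .))`. Also
`m_0 ≤ m` (`ex_erase`, `m_0 ≤ m_1`), so `1 - m_0 ≥ 1 - r ≥ lam` and
`lam * lam * m_0 ≤ ε1 ≤ lam ^ 2 η`. -/
def S_stab2 : Prop := ∀ lam η : ℝ, 0 < lam → lam ≤ 1 / 2 → 0 < η → ∃ δ0 : ℝ, 0 < δ0 ∧
  ∀ (α : Type) [DecidableEq α] (J : Finset α) (g : Finset α → ℝ) (r δ : ℝ),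
  lam ≤ r → r ≤ 1 - lam → 0 < δ → δ ≤ δ0 → Bool01 g → Monotone g →
  ∑ i ∈ J, ex r J (D i g) ≤ 1 + δ → r - 2 * δ ≤ ex r J g → ex r J g ≤ r →
  ∃ x ∈ J, ex r (J.erase x) g ≤ η

/-- Stability. Dependencies: `S_stab1`, `S_stab2`, `S_monop`.
Proof. `lam' = min (min lam (1 / (d + 1))) (1 / 2)`, `δ = min (min δ0 lam) 1` with `δ0` from
`S_stab2 lam' η`, `ε = δ ^ 2`. `r` from `S_stab1` (`(d + 1) (p + δ) ≤ d`); `r ≤ p + δ ≤ d / (d + 1) =
1 - 1 / (d + 1) ≤ 1 - lam'`. `S_stab2` gives `x`, and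
`ex p (J.erase x) g ≤ ex r (J.erase x) g ≤ η` (`S_monop`). -/
def S_stab : Prop := ∀ (d : ℕ) (lam η : ℝ), 1 ≤ d → 0 < lam → 0 < η → ∃ ε : ℝ, 0 < ε ∧
  ∀ (α : Type) [DecidableEq α] [Fintype α] (J : Finset α) (g : Finset α → ℝ) (p : ℝ),
  lam ≤ p → ((d : ℝ) + 1) * (p + lam) ≤ d → Bool01 g → Monotone g → WiseInt d J g →
  p - ε ≤ ex p J g → ∃ x ∈ J, ex p (J.erase x) g ≤ η

/-! ## Block J: juntas -/

/-- The rounded function is wise intersecting. Dependency: `S_couple`.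
Proof. `gg` is Bool01 by definition, monotone since `mm` is monotone in `R` (`ex_mono`,
Finset.union_subset_union_left). WiseInt: suppose `R i ⊆ J`, `gg (R i) = 1` for all `i` and (negation)
`∀ e, ∃ i, e ∉ R i`. `φ i S = f (R i ∪ S)` is Bool01, `ex p (U \ J) (φ i) ≥ 1 - θ`, `θ = 1 / (d + 2)`,
and `(d + 1) θ + card (U \ J) / (4 t ^ 2) < (d + 1) / (d + 2) + 1 / (d + 2) = 1`. `S_couple` with
`W = U \ J` gives `S i ⊆ U \ J`; put `C i = R i ∪ S i ⊆ U`: `f (C i) = 1`; for `e ∈ J` choose `i` with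
`e ∉ R i` (and `e ∉ S i`), for `e ∉ J` choose `i` with `e ∉ S i` (and `e ∉ R i`); the union is
contained in `J ∪ (union of the S i)`, so its card is at most
`card J + (d + 1) / d * p * card U + t ≤ X`, contradicting `NC`. -/
def S_j1 : Prop := ∀ (α : Type) [DecidableEq α] [Fintype α] (d : ℕ) (U J : Finset α) (p t X : ℝ)
  (f : Finset α → ℝ), 1 ≤ d → J ⊆ U → 0 ≤ p → ((d : ℝ) + 1) * p ≤ d → 0 < t →
  ((d : ℝ) + 2) * U.card < 4 * t ^ 2 → ((d : ℝ) + 1) / d * p * U.card + t + J.card ≤ X →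
  Bool01 f → Monotone f → NC d U X f →
  Bool01 (gg d p U J f) ∧ Monotone (gg d p U J f) ∧ WiseInt d J (gg d p U J f)

/-- The two comparison inequalities.
Proof. `m = mm p U J f R ∈ [0, 1]`. Pointwise `m ≤ gg + (d + 2) m (1 - m)`: if `gg = 1` clear; if
`gg = 0` then `1 / (d + 2) < 1 - m`, so `m ≤ (d + 2) m (1 - m)`. First inequality: `ex_split`,
`ex_mono`, `ex_add`, `ex_mul_left`. Second: `J.erase x ⊆ U.erase x` and
`(U.erase x) \ (J.erase x) = U \ J` for `x ∈ J`, so `ex_split` gives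
`ex p (U.erase x) f = ex p (J.erase x) (mm p U J f) ≤ ex p (J.erase x) gg + (d + 2) ex p (J.erase x)
(m (1 - m))`, and `(1 - p) ex p (J.erase x) ψ ≤ ex p J ψ` for `ψ ≥ 0` (`ex_erase`, `ex_nonneg`). -/
def S_j2 : Prop := ∀ (α : Type) [DecidableEq α] (d : ℕ) (U J : Finset α) (p : ℝ)
  (f : Finset α → ℝ), J ⊆ U → 0 ≤ p → p ≤ 1 → Bool01 f →
  ex p U f ≤ ex p J (gg d p U J f) +
    ((d : ℝ) + 2) * ex p J (fun R => mm p U J f R * (1 - mm p U J f R)) ∧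
  ∀ x ∈ J, (1 - p) * ex p (U.erase x) f ≤ (1 - p) * ex p (J.erase x) (gg d p U J f) +
    ((d : ℝ) + 2) * ex p J (fun R => mm p U J f R * (1 - mm p U J f R))

/-- The junta step. Dependencies: `S_stab`, `S_friedgut`, `S_j1`, `S_j2`.
Proof. `ε0` from `S_stab d lam (η / 2)`; `ε = ε0 / 2`. Given `K`, put
`ε2 = min (ε0 / (2 (d + 2))) (η * lam / (2 (d + 2)))` and `M` from `S_friedgut lam K ε2`. Given the
data, `D i f` has values `0, 1` (monotone, Bool01), so `D i f ^ 2 = D i f`; `p ≤ 1 - lam` because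
`(d + 1) (p + lam) ≤ d`. `S_friedgut` gives `J`; `S_j1` applies (`card J ≤ M`); `S_j2`:
`ex p J gg ≥ ex p U f - (d + 2) ε2 ≥ p - ε0`. `S_stab`: `x ∈ J` with `ex p (J.erase x) gg ≤ η / 2`, so
`ex p (U.erase x) f ≤ η / 2 + (d + 2) ε2 / (1 - p) ≤ η`, as `1 - p ≥ lam`. -/
def S_junta : Prop := ∀ (d : ℕ) (lam η : ℝ), 1 ≤ d → 0 < lam → 0 < η → ∃ ε : ℝ, 0 < ε ∧
  ∀ K : ℝ, 0 < K → ∃ M : ℕ, ∀ (α : Type) [DecidableEq α] [Fintype α] (U : Finset α) (p t X : ℝ)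
  (f : Finset α → ℝ), lam ≤ p → ((d : ℝ) + 1) * (p + lam) ≤ d → 0 < t →
  ((d : ℝ) + 2) * U.card < 4 * t ^ 2 → ((d : ℝ) + 1) / d * p * U.card + t + M ≤ X →
  Bool01 f → Monotone f → NC d U X f → ∑ i ∈ U, ex p U (D i f) ≤ K → p - ε ≤ ex p U f →
  ∃ x ∈ U, ex p (U.erase x) f ≤ η

/-! ## Block A: approximation -/

/-- Density of the up-closure.
Proof. Write both `ex` as sums over the cardinality (`Finset.sum_powerset`). It is enough to show for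
`k ≤ j ≤ N = card U`: `card F / C(N, k) * C(N, j) ≤ ∑ S ∈ powersetCard j U, up F S`. Count the pairs
`(A, S)`, `A ∈ F`, `A ⊆ S`, `S ∈ powersetCard j U`: for each `A` there are `C(N - k, j - k)` such `S`, for
each `S` at most `C(j, k)` such `A`, and none if `up F S = 0`. So
`card F * C(N - k, j - k) ≤ C(j, k) * ∑ up F S`, and `C(N, j) C(j, k) = C(N, k) C(N - k, j - k)`
(`Nat.choose_mul`). -/
def S_dens : Prop := ∀ (α : Type) [DecidableEq α] (U : Finset α) (k : ℕ)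
  (F : Finset (Finset α)) (p : ℝ), 0 ≤ p → p ≤ 1 → F ⊆ U.powersetCard k → k ≤ U.card →
  (F.card : ℝ) / (U.card.choose k) * ex p U (fun S => if k ≤ S.card then 1 else 0) ≤
    ex p U (up F)

/-- Lower tail. Dependency: `S_cheb`.
Proof. `t = p N - k > 0`. For `S ⊆ U`: `1 - [t ≤ |card S - p N|] ≤ [k ≤ card S]` (if `card S < k` then
`p N - card S > t`). `ex_mono`, `ex_sub`, `ex_const`, `S_cheb`. -/
def S_tail : Prop := ∀ (α : Type) [DecidableEq α] (U : Finset α) (k : ℕ) (p : ℝ), 0 ≤ p → p ≤ 1 →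
  (k : ℝ) < p * U.card →
  1 - (U.card : ℝ) / (4 * (p * U.card - k) ^ 2) ≤
    ex p U (fun S => if k ≤ S.card then 1 else 0)

/-- The choice of `p`. Dependencies: `S_mvt`, `S_dens`, `S_tail`.
Proof. `U = univ : Finset (Fin n)`, `f = up F`, `0 < k < n` (`ζ n ≤ k`, `n > 0`; `k < n` since
`d / (d + 1) - ζ < 1`). `S_mvt` on `[(1 + z) k / n, (1 + 2 z) k / n]` gives `p` with
`(∑ ..) * (z k / n) = difference ≤ 1` (`ex ≤ 1`, `≥ 0`; both end points are in `[0, 1]`: `(1 + 2 z) k / n ≤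
k / n + 2 z ≤ d / (d + 1) - ζ + ζ / 4 < 1`), and `z k / n ≥ z ζ`, so `∑ ≤ 1 / (z ζ)`.
`p ≥ k / n ≥ ζ`. `p ≤ k / n + 2 z ≤ d / (d + 1) - ζ / 2`. `S_dens`, `card F / C(n, k) ≥
C(n - 1, k - 1) / C(n, k) = k / n`, `S_tail` with `p n - k ≥ z k ≥ z ζ n`:
`ex p univ f ≥ (k / n) (1 - n / (4 (z ζ n) ^ 2)) ≥ k / n - 1 / (4 z ^ 2 ζ ^ 2 n)`, and
`p ≤ k / n + 2 z`. -/
def S_choose : Prop := ∀ (d n k : ℕ) (ζ z : ℝ) (F : Finset (Finset (Fin n))), 1 ≤ d → 0 < ζ →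
  0 < z → z ≤ ζ / 8 → 0 < n → ζ * n ≤ k → (k : ℝ) ≤ ((d : ℝ) / (d + 1) - ζ) * n →
  (∀ A ∈ F, A.card = k) → (n - 1).choose (k - 1) ≤ F.card →
  ∃ p : ℝ, ζ ≤ p ∧ ((d : ℝ) + 1) * (p + ζ / 2) ≤ d ∧ (1 + z) * k ≤ p * n ∧
    p * n ≤ (1 + 2 * z) * k ∧
    ∑ i ∈ (univ : Finset (Fin n)), ex p univ (D i (up F)) ≤ 1 / (z * ζ) ∧
    p - 2 * z - 1 / (4 * z ^ 2 * ζ ^ 2 * n) ≤ ex p (univ : Finset (Fin n)) (up F)

/-- Approximate structure. Dependencies: `S_junta`, `S_choose`, `S_dens`, `S_tail`.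
Proof. `lam = ζ / 2`; `ε` from `S_junta d lam (η / 2)`; `z = min (ζ / 8) (ε / 4)`; `M` from `S_junta` for
`K = 1 / (z ζ)`. `n0` is chosen so large that for `n > n0`: `1 / (4 z ^ 2 ζ ^ 2 n) ≤ ε / 2`,
`sqrt ((d + 2) n) + M ≤ ζ ^ 2 n / 2`, `1 ≤ z ζ n / 2`, `1 / (z ^ 2 ζ ^ 2 n) ≤ 1 / 2`
(for the second one e.g. via `sqrt ((d + 2) n) ≤ a n` for `n ≥ (d + 2) / a ^ 2`). Let `p` be from
`S_choose`, `t = sqrt ((d + 2) n) > 0`, `4 t ^ 2 = 4 (d + 2) n > (d + 2) n`,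
`X = (1 + 1 / d) k + ζ k`. `(d + 1) / d * p * n + t + M ≤ (1 + 1 / d) (1 + 2 z) k + t + M ≤
(1 + 1 / d) k + 4 z k + t + M ≤ X`, since `4 z ≤ ζ / 2` and `t + M ≤ ζ ^ 2 n / 2 ≤ ζ k / 2`. `NC` for
`f = up F`: `up_eq_one` gives `A i ∈ F`, `A i ⊆ S i`; no common element, and the union is contained
in the union of the `S i`; contradiction to `TupleFree`. `p - ε ≤ ex p univ f` since `2 z ≤ ε / 2`. So
there is `x` with `ex p (univ.erase x) f ≤ η / 2`. `F0 = F.filter (x ∉ .) ⊆ powersetCard k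
(univ.erase x)`, `up F0 ≤ up F`; `S_dens` on `univ.erase x` (card `n - 1 ≥ k`) and `S_tail` there
(`p (n - 1) - k ≥ z k - 1 ≥ z ζ n / 2`, so the tail is at least `1 - (n - 1) / (4 (z ζ n / 2) ^ 2) ≥
1 - 1 / (z ^ 2 ζ ^ 2 n) ≥ 1 / 2`): `card F0 / C(n - 1, k) * (1 / 2) ≤ η / 2`. -/
def S_approx : Prop := ∀ (d : ℕ) (ζ η : ℝ), 1 ≤ d → 0 < ζ → 0 < η → ∃ n0 : ℕ, ∀ n k : ℕ, n0 < n →
  ζ * n ≤ k → (k : ℝ) ≤ ((d : ℝ) / (d + 1) - ζ) * n → ∀ F : Finset (Finset (Fin n)),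
  (∀ A ∈ F, A.card = k) → TupleFree d k ζ F → (n - 1).choose (k - 1) ≤ F.card →
  ∃ x : Fin n, ((F.filter fun A => x ∉ A).card : ℝ) ≤ η * (n - 1).choose k

/-! ## Block G: bootstrapping -/

/-- The fixed sets.
Proof. Everything inside `I = {e : e < w}`, `q = w - m`. `S0 = {e : e < k'}`. For `i : Fin d` let
`B i` be the interval `[i q, (i + 1) q)` if `(i + 1) q ≤ w`, and `[m, w)` otherwise (then `m < i q`, so
`[i q, w) ⊆ B i`; if `q = 0` the first case holds); `card (B i) = q`, `A i = I \ B i` has card `m`.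
If `e < k'` then `e < k' ≤ d (w - m) = d q` (from `k' + d m ≤ d w`), so `q > 0` and `i = e / q < d` has
`i q ≤ e < (i + 1) q`, so `e ∈ B i`, `e ∉ A i`. If `e ≥ k'` then `e ∉ S0`. -/
def S_block : Prop := ∀ N k' m d w : ℕ, k' ≤ w → m ≤ w → w ≤ N → k' + d * m ≤ d * w →
  ∃ (S0 : Finset (Fin N)) (A : Fin d → Finset (Fin N)), S0.card = k' ∧ (∀ i, (A i).card = m) ∧
    (∀ e, e ∉ S0 ∨ ∃ i, e ∉ A i) ∧ (∀ e ∈ S0, e.val < w) ∧ ∀ i, ∀ e ∈ A i, e.val < w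

/-- Counting permutations.
Proof. For `r`-sets `B`, `B'` the numbers of `σ` with `A.map σ = B` and with `A.map σ = B'` agree:
there is a permutation `τ` with `B.map τ = B'` (`exists_perm_map` in
`Pool.Agent.Lib.MP_b0b8df_co.Blocks`), and `σ ↦ τ * σ` is a bijection. Let `c` be the common number;
summing over all `B ∈ powersetCard r univ` gives `c * C(N, r) = N !` (Fintype.card_perm), summing over
`𝒜` gives the number on the left, `c * 𝒜.card`. -/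
def S_perm : Prop := ∀ (N r : ℕ) (A : Finset (Fin N)) (𝒜 : Finset (Finset (Fin N))),
  A.card = r → (∀ B ∈ 𝒜, B.card = r) →
  (univ.filter fun σ : Equiv.Perm (Fin N) => A.map σ.toEmbedding ∈ 𝒜).card * N.choose r =
    𝒜.card * N.factorial

/-- The first inequality. Dependencies: `S_block`, `S_perm`.
Proof. `S0`, `A i` from `S_block`. For every permutation `σ` with `S0.map σ ∈ 𝒢` some
`(A i).map σ ∈ ℳ` (apply the hypothesis to `S0.map σ`, `(A i).map σ`, whose union is contained in the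
image of `{e : e < w}`, of card at most `w`). So the number of `σ` with `S0.map σ ∈ 𝒢` is at most
`∑ i, ` the number of `σ` with `(A i).map σ ∈ ℳ` (Finset.card_biUnion_le); multiply by
`C(N, k') * C(N, m)`, use `S_perm`, divide by `N !`. -/
def S_G1 : Prop := ∀ (N k' m d w : ℕ) (𝒢 ℳ : Finset (Finset (Fin N))), k' ≤ w → m ≤ w → w ≤ N →
  k' + d * m ≤ d * w → (∀ S ∈ 𝒢, S.card = k') → (∀ B ∈ ℳ, B.card = m) →
  (∀ (S : Finset (Fin N)) (A : Fin d → Finset (Fin N)), S ∈ 𝒢 → (∀ i, (A i).card = m) →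
    (∀ e, e ∉ S ∨ ∃ i, e ∉ A i) → (S ∪ univ.biUnion A).card ≤ w → ∃ i, A i ∈ ℳ) →
  𝒢.card * N.choose m ≤ d * ℳ.card * N.choose k'

/-- A product estimate.
Proof. Induction on `h`. `h = 0`: equality. Step (`h + 1 ≤ r`): with `j = r - h - 1`,
`C(N, j + 1) * (j + 1) = C(N, j) * (N - j)` and `C(t, j + 1) * (j + 1) = C(t, j) * (t - j)`
(`Nat.choose_succ_right_eq`), `t - j ≥ 1`, and `(1 + (N - t) / N) * (t - j) ≤ N - j` (since
`t - j ≤ N`). So from `C(t, r) C(N, j + 1) y ^ h ≤ C(t, j + 1) C(N, r)` (`y = 1 + (N - t) / N`) we get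
after multiplying by `(j + 1)` and using both identities
`C(t, r) C(N, j) (N - j) y ^ h ≤ C(t, j) (t - j) C(N, r)` and then the claim. -/
def S_G2a : Prop := ∀ N t r h : ℕ, t ≤ N → 0 < N → h ≤ r → r ≤ t →
  (t.choose r : ℝ) * N.choose (r - h) * (1 + ((N : ℝ) - t) / N) ^ h ≤
    (t.choose (r - h) : ℝ) * N.choose r

/-- The numerical part.
Proof. Assume `lam ≤ 1` (otherwise `k ≥ lam N > N` is impossible for `N ≥ 1`; or take
`min lam 1`). Let `L : ℕ` with `L ≥ 1`, `2 Λ / lam ^ 2 ≤ L`, `ε = (lam / 2) ^ L / 2`, and `N0 ≥ 1` so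
large that `Λ * N ≤ (1 + lam / 2) ^ (lam N)` for `N ≥ N0` (real power; or with `⌊lam N⌋₊`; e.g.
`(1 + x) ^ h ≥ h (h - 1) / 2 * x ^ 2` for natural `h`).
Case 1: `N - t ≤ lam N / 2`. For `t ≤ i < N`, `C(i, r) / C(i + 1, r) = (i + 1 - r) / (i + 1) ≥
(lam / 2)`, because `i + 1 - r ≥ t + 1 - (N - k) ≥ k - lam N / 2 ≥ lam N / 2` and `i + 1 ≤ N`
(`Nat.succ_sub..`: `C(i + 1, r) * (i + 1 - r) = C(i, r) * (i + 1)`, `Nat.choose_mul_succ_eq`). So by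
induction `C(t, r) ≥ (lam / 2) ^ (N - t) * C(N, r)`; with `C(t, r) ≤ ε C(N, r)` we get `N - t ≥ L + 1`.
Then `(t + 1 - r) / (t + 1) ≥ lam / 2` and `(1 + (N - t) / N) ^ h ≥ 1 + h (N - t) / N ≥ 1 + lam L`
(one_add_mul_le_pow), so the product is at least `lam ^ 2 L / 2 ≥ Λ`.
Case 2: `N - t > lam N / 2`. `(t + 1 - r) / (t + 1) ≥ 1 / N` (`t + 1 ≤ N`) and
`(1 + (N - t) / N) ^ h ≥ (1 + lam / 2) ^ h ≥ Λ N`, as `h ≥ lam N`. -/
def S_G2num : Prop := ∀ lam Λ : ℝ, 0 < lam → 0 < Λ → ∃ (ε : ℝ) (N0 : ℕ), 0 < ε ∧ ε < 1 ∧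
  ∀ N t r h k : ℕ, N0 ≤ N → N = r + k → lam * N ≤ k → lam * N ≤ h → h ≤ r → r ≤ t → t < N →
  (t.choose r : ℝ) ≤ ε * N.choose r →
  Λ ≤ ((t : ℝ) + 1 - r) / (t + 1) * (1 + ((N : ℝ) - t) / N) ^ h

/-- The second inequality. Dependencies: `S_G2a`, `S_G2num`.
Proof. `ε`, `N0` from `S_G2num` (with `N0 ≥ 1`). `r = N - k`, `h ≤ r`. `ℬ' = ℬ.map compl` (or image),
`card ℬ' = card ℬ =: b`, `ℬ'` is `r`-uniform, `1 ≤ b ≤ ε C(N, k) < C(N, r)` (`Nat.choose_symm`). Let `t`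
be the largest number `≤ N` with `r ≤ t` and `C(t, r) ≤ b` (`Nat.findGreatest`): `t < N` and
`b < C(t + 1, r)`. Lovasz form (`Finset.kruskal_katona_lovasz_form` with `i = h`): the iterated
shadow `∂^[h] ℬ'` has at least `C(t, r - h)` members, and its members are exactly the complements
of the members of `𝒢` (`Finset.mem_shadow_iterate_iff_exists_mem_card_add` or the like); only
`card (∂^[h] ℬ') ≤ card 𝒢` is needed: the complement of a member has `N - (r - h) = k + h` elements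
and contains a member of `ℬ`. Then, with `y = (1 + (N - t) / N) ^ h` and
`C(t + 1, r) * (t + 1 - r) = C(t, r) * (t + 1)`:
`b * C(N, k + h) = b * C(N, r - h) ≤ C(t, r) (t + 1) / (t + 1 - r) * C(N, r - h)`,
`C(t, r) C(N, r - h) y ≤ C(t, r - h) C(N, r) ≤ card 𝒢 * C(N, k)`, and
`Λ ≤ (t + 1 - r) / (t + 1) * y`. -/
def S_G2 : Prop := ∀ lam Λ : ℝ, 0 < lam → 0 < Λ → ∃ (ε : ℝ) (N0 : ℕ), 0 < ε ∧
  ∀ (N k h : ℕ) (ℬ : Finset (Finset (Fin N))), N0 ≤ N → lam * N ≤ k → lam * N ≤ h → k + h ≤ N →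
  (∀ B ∈ ℬ, B.card = k) → ℬ.Nonempty → (ℬ.card : ℝ) ≤ ε * N.choose k →
  Λ * (ℬ.card * N.choose (k + h)) ≤
    (((univ : Finset (Fin N)).powersetCard (k + h)).filter fun S => ∃ B ∈ ℬ, B ⊆ S).card *
      N.choose k

/-- Translation to `Fin N`, `n = N + 1`, for a point `x` of `Fin (N + 1)`.
Here `x.succAboveEmb : Fin N ↪ Fin (N + 1)` is the embedding missing `x`; `ℬ` = the members of `F` not
containing `x`, pulled back, `ℳ` = the `(k - 1)`-sets whose extension by `x` is not in `F`.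
Proof. `card ℬ = card (F.filter (x ∉ .))` (the map is injective on sets and every `A` with `x ∉ A` is
`B.map x.succAboveEmb` for `B = univ.filter (x.succAbove e ∈ A)`). The members of `F` containing `x`
correspond to the `(k - 1)`-sets not in `ℳ`, so `card ℳ = C(N, k - 1) - card (F.filter (x ∈ .))`, i.e.
`card ℳ + card F = C(N, k - 1) + card (F.filter (x ∉ .))`, and `C(N, k - 1) ≤ card F` gives
`card ℳ ≤ card ℬ`. -/
def S_miss : Prop := ∀ (N k : ℕ) (F : Finset (Finset (Fin (N + 1)))) (x : Fin (N + 1)), 1 ≤ k →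
  (∀ A ∈ F, A.card = k) → ∃ ℬ ℳ : Finset (Finset (Fin N)),
    (∀ B, B ∈ ℬ ↔ B.map x.succAboveEmb ∈ F) ∧
    (∀ B, B ∈ ℳ ↔ B.card = k - 1 ∧ insert x (B.map x.succAboveEmb) ∉ F) ∧
    ℬ.card = (F.filter fun A => x ∉ A).card ∧
    ℳ.card + F.card = N.choose (k - 1) + ℬ.card

/-- Numerical conditions for the bootstrapping.
Proof. `z = min (ζ / 2) (1 / (2 d))`, `lam = z * ζ / 2`, `h = ⌊z k⌋₊`, `N = n - 1`,
`w = k - 1 + ⌈(k + h) / d⌉₊` (real division). The conditions, for `n` large (`k ≥ ζ n`):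
`lam * N ≤ h`: `h > z k - 1 ≥ z ζ n - 1 ≥ z ζ n / 2`. `lam N ≤ k`: clear (`z ≤ 1`).
`(k + h) + d (k - 1) ≤ d w`: `⌈(k + h) / d⌉ ≥ (k + h) / d`. `k - 1 ≤ w` clear.
`k + h ≤ w`: `(h + 1) d ≤ k + h` since `h (d - 1) + d ≤ z k (d - 1) + d ≤ k / 2 + k / 2`.
`w ≤ N` and `w + 1 ≤ (1 + 1 / d) k + ζ k`: `w < k + (k + h) / d ≤ k + (1 + z) k / d =
(1 + 1 / d) k + z k / d`, where `z k / d ≤ ζ k / 2`, `(1 + 1 / d) k ≤ n - (1 + 1 / d) ζ n`
and `k ≤ n`. -/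
def S_bootnum : Prop := ∀ (d : ℕ) (ζ : ℝ), 1 ≤ d → 0 < ζ → ∃ (lam : ℝ) (n0 : ℕ), 0 < lam ∧
  ∀ n k : ℕ, n0 < n → ζ * n ≤ k → (k : ℝ) ≤ ((d : ℝ) / (d + 1) - ζ) * n →
  ∃ h w : ℕ, lam * (n - 1 : ℕ) ≤ h ∧ lam * (n - 1 : ℕ) ≤ k ∧ k + h ≤ n - 1 ∧
    (k + h) + d * (k - 1) ≤ d * w ∧ k + h ≤ w ∧ k - 1 ≤ w ∧ w ≤ n - 1 ∧
    ((w : ℝ) + 1 ≤ (1 + 1 / (d : ℝ)) * k + ζ * k)

/-- Bootstrapping. Dependencies: `S_G1`, `S_G2`, `S_miss`, `S_bootnum`.
Proof. `lam`, `n0` from `S_bootnum`; `Λ = d / ζ + 1`; `η`, `N0` from `S_G2 lam Λ`. Suppose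
`F.filter (x ∉ .)` is nonempty. `n = N + 1`, `ℬ`, `ℳ` from `S_miss`, `ℬ` nonempty, `card ℳ ≤ card ℬ`
(`C(N, k - 1) ≤ card F`). `𝒢 = (powersetCard (k + h) univ).filter (∃ B ∈ ℬ, B ⊆ .)`. The hypothesis of
`S_G1` with `m = k - 1`, `k' = k + h`: let `S ∈ 𝒢`, `A i` as there; choose `B ∈ ℬ`, `B ⊆ S`. If no
`A i` is in `ℳ`, then `C 0 = B.map ..`, `C (i + 1) = insert x ((A i).map ..)` (`Fin.cons`) are in `F`,
no common element (`x ∉ C 0`; `e = x.succAbove e'` and `e' ∉ S` or `e' ∉ A i`), and the union is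
contained in `insert x ((S ∪ univ.biUnion A).map ..)`, of card at most `w + 1 ≤ (1 + 1 / d) k + ζ k`,
against `TupleFree`. So `card 𝒢 * C(N, k - 1) ≤ d * card ℳ * C(N, k + h) ≤ d * card ℬ * C(N, k + h)`,
and `S_G2`: `Λ card ℬ C(N, k + h) ≤ card 𝒢 * C(N, k)`. Hence
`Λ C(N, k - 1) ≤ d C(N, k)` (cancel `card ℬ > 0`, `C(N, k + h) > 0`), while
`C(N, k) * k = C(N, k - 1) * (N - k + 1)` (`Nat.choose_succ_right_eq`) and `N - k + 1 ≤ n ≤ k / ζ` give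
`C(N, k) ≤ C(N, k - 1) / ζ`, so `Λ ≤ d / ζ`, a contradiction. -/
def S_boot : Prop := ∀ (d : ℕ) (ζ : ℝ), 1 ≤ d → 0 < ζ → ∃ (η : ℝ) (n0 : ℕ), 0 < η ∧
  ∀ n k : ℕ, n0 < n → ζ * n ≤ k → (k : ℝ) ≤ ((d : ℝ) / (d + 1) - ζ) * n →
  ∀ (F : Finset (Finset (Fin n))) (x : Fin n), (∀ A ∈ F, A.card = k) → TupleFree d k ζ F →
  (n - 1).choose (k - 1) ≤ F.card →
  ((F.filter fun A => x ∉ A).card : ℝ) ≤ η * (n - 1).choose k → ∀ A ∈ F, x ∈ A

/-- The linear range. Dependencies: `S_approx`, `S_boot`. Proof: combine. -/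
def S_linear : Prop := ∀ (d : ℕ) (ζ : ℝ), 1 ≤ d → 0 < ζ → ∃ n0 : ℕ,
  ∀ n k : ℕ, n0 < n → ζ * n ≤ k → (k : ℝ) ≤ ((d : ℝ) / (d + 1) - ζ) * n →
  ∀ F : Finset (Finset (Fin n)), (∀ A ∈ F, A.card = k) → TupleFree d k ζ F →
  (n - 1).choose (k - 1) ≤ F.card → ∃ x : Fin n, ∀ A ∈ F, x ∈ A

/-! ## Block E: Erdos-Ko-Rado with uniqueness -/

/-- Proper families in the middle have larger shadows.
Proof. `𝒟 = (powersetCard s M).filter (∃ A ∈ 𝒜, D ⊆ A)`. Double counting of the pairs `D ⊆ A`, `A ∈ 𝒜`,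
`D ∈ 𝒟`: `card 𝒜 * C(r, s)` on one side; each `D` lies in exactly `C(r, r - s) = C(r, s)` members of
`powersetCard r M` (`card M - s = r`), so the count is `≤ card 𝒟 * C(r, s)`, with strict inequality if
some `D ∈ 𝒟` lies in an `A' ∈ powersetCard r M` not in `𝒜`. Such a pair exists: otherwise `𝒜` is closed
under exchanging one element: if `A ∈ 𝒜`, `a ∈ A`, `b ∈ M \ A`, choose `D ⊆ A.erase a` of size `s`
(`s ≤ r - 1`), `D ⊆ A' = insert b (A.erase a)`, so `A' ∈ 𝒜`; and then every `r`-set `A'' ⊆ M` is in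
`𝒜` (induction on `card (A'' \ A)`, for `A ∈ 𝒜`: exchange `a ∈ A \ A''` for `b ∈ A'' \ A`), against
`𝒜 ≠ powersetCard r M`. -/
def S_reg : Prop := ∀ (α : Type) [DecidableEq α] (M : Finset α) (r s : ℕ)
  (𝒜 : Finset (Finset α)), M.card = r + s → 1 ≤ s → s < r → 𝒜 ⊆ M.powersetCard r → 𝒜.Nonempty →
  𝒜 ≠ M.powersetCard r →
  𝒜.card < ((M.powersetCard s).filter fun D => ∃ A ∈ 𝒜, D ⊆ A).card

/-- Initial segments of the colex order: existence, and location.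
Proof. Part 1 (existence): induction on `b`; given an initial segment `𝒞` of size `b < C(N, r)` there is
an `r`-set outside `𝒞`; take the one minimal in the (linear) colex order
(`Finset.exists_min_image`, `toColex`) and insert it. Part 2: `powersetCard r` of `{a : a < m}` is an
initial segment (`Finset.Colex.forall_lt_mono`) with `C(m, r)` members; by `IsInitSeg.total` it contains
`𝒞`, or it is contained in `𝒞` and then `card 𝒞 = C(m, r)` gives equality. -/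
def S_init : Prop := ∀ N r : ℕ, (∀ b : ℕ, b ≤ N.choose r →
    ∃ 𝒞 : Finset (Finset (Fin N)), Finset.Colex.IsInitSeg 𝒞 r ∧ 𝒞.card = b) ∧
  ∀ (m : ℕ) (𝒞 : Finset (Finset (Fin N))), m ≤ N → Finset.Colex.IsInitSeg 𝒞 r →
    𝒞.card ≤ m.choose r → ∀ A ∈ 𝒞, ∀ a ∈ A, a.val < m

/-- The shadow inequality used for uniqueness. Dependencies: `S_reg`, `S_init`.
Proof. `b = card ℬ`, `0 < b < C(r + s, r)`, `N = r + s + 1`. `𝒞` = initial segment of size `b` of the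
`r`-sets of `Fin N`; its members lie in `I = {a : a < r + s}` (`S_init` with `m = r + s`), and
`𝒞 ≠ powersetCard r I` (card). `S_reg` with `M = I`: at least `b + 1` sets of size `s` lie in members of
`𝒞`; they are in `∂^[r - s] 𝒞` (`Finset.mem_shadow_iterate_iff_exists_mem_card_add` or similar).
`Finset.iterated_kk`: `card (∂^[r - s] 𝒞) ≤ card (∂^[r - s] ℬ)`, and the members of `∂^[r - s] ℬ` are
`s`-sets contained in members of `ℬ`. -/
def S_shadow : Prop := ∀ (r s : ℕ) (ℬ : Finset (Finset (Fin (r + s + 1)))), 1 ≤ s → s < r →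
  (∀ B ∈ ℬ, B.card = r) → ℬ.Nonempty → ℬ.card < (r + s).choose r →
  ℬ.card < (((univ : Finset (Fin (r + s + 1))).powersetCard s).filter fun D =>
    ∃ A ∈ ℬ, D ⊆ A).card

/-- A vertex of large degree.
Proof. `∑ x, card (F.filter (x ∈ .)) = k * card F` (Finset.sum_card_bipartiteAbove_eq.. or sum_comm), so
some `x` has `n * deg x ≥ k * card F ≥ k * C(n - 1, k - 1)`. And `(n - 1) C(n - 2, k - 2) =
(k - 1) C(n - 1, k - 1)`; if `deg x ≤ C(n - 2, k - 2)` then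
`k (n - 1) C(n - 1, k - 1) ≤ n (n - 1) deg x ≤ n (k - 1) C(n - 1, k - 1)`, so `k (n - 1) ≤ n (k - 1)`,
i.e. `n ≤ k`, a contradiction. Finally `C(n - 1, k - 1) = C(n - 2, k - 2) + C(n - 2, k - 1)`. -/
def S_deg : Prop := ∀ (n k : ℕ) (F : Finset (Finset (Fin n))), 2 ≤ k → k < n →
  (∀ A ∈ F, A.card = k) → (n - 1).choose (k - 1) = F.card →
  ∃ x : Fin n, (F.filter fun A => x ∉ A).card < (n - 2).choose (k - 1)

/-- Erdos-Ko-Rado with uniqueness. Dependencies: `S_shadow`, `S_deg`, `S_miss`.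
Proof. `k = 1`: `F` is nonempty and all its members are singletons which pairwise intersect. `k ≥ 2`:
`erdos_ko_rado` in Mathlib gives `card F = C(n - 1, k - 1)`. `x` from `S_deg`; `n = N + 1`; `ℬ`, `ℳ` from
`S_miss`; so `card ℳ = card ℬ =: b < C(N - 1, k - 1)`. Suppose `b > 0`. `r = N - k`, `s = k - 1`,
`N = r + s + 1`, `1 ≤ s < r` (as `n > 2 k`). `ℬ'` = complements of the members of `ℬ`: `r`-sets, same
number, `C(N - 1, k - 1) = C(r + s, s) = C(r + s, r)`. `S_shadow`: more than `b` sets `D` of size `s` lie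
in members of `ℬ'`. Each of them is in `ℳ`: `D` is disjoint from `B ∈ ℬ`, so
`insert x (D.map ..)` is disjoint from `B.map .. ∈ F`, hence not in `F`. So `card ℳ > b`, a
contradiction. Therefore `ℬ` is empty, and every member of `F` contains `x`. -/
def S_EKR : Prop := ∀ (n k : ℕ) (F : Finset (Finset (Fin n))), 1 ≤ k → 2 * k < n →
  (∀ A ∈ F, A.card = k) → (∀ A ∈ F, ∀ B ∈ F, ¬ Disjoint A B) →
  (n - 1).choose (k - 1) ≤ F.card → ∃ x : Fin n, ∀ A ∈ F, x ∈ A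

end Pool.Agent.Lib.MP_b0b8df_co.Lin
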