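import Pool.Agent.Lib.MP_b0b8df_co.Final
import Pool.Agent.Lib.MP_b0b8df_co.Lin.Stm

/-!
# MP_b0b8df_co: cluster form of the linear range and of the case `d = 1`
-/

set_option autoImplicit false

namespace Pool.Agent.Lib.MP_b0b8df_co.Lin

open Finset

/-- The linear range in terms of tuples, for the families without clusters. -/
theorem linear_star (hlin : S_linear) (d : ℕ) (hd : 2 ≤ d) (ζ : ℝ) (hζ : 0 < ζ)
    (hζd : ζ * d ^ 2 < 1) : ∃ n0 : ℕ, ∀ n k : ℕ, n0 < n → ζ * n ≤ k →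
      (k : ℝ) ≤ ((d : ℝ) / (d + 1) - ζ) * n → ∀ F : Finset (Finset (Fin n)),
      (∀ A ∈ F, A.card = k) →
      (∀ A : Fin (d + 1) → Finset (Fin n), Function.Injective A → (∀ i, A i ∈ F) →
        (∀ x : Fin n, ∃ i, x ∉ A i) →
        ¬ ((Finset.univ.biUnion A).card : ℝ) ≤ (((d : ℝ) + 1) / d + ζ) * k) →
      (n - 1).choose (k - 1) ≤ F.card →
      ∃ x : Fin n, F = (Finset.powersetCard k Finset.univ).filter (fun A => x ∈ A) := by
  obtain ⟨n0, H⟩ := hlin d ζ (by omega) hζ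
  refine ⟨n0, ?_⟩
  intro n k hn hk1 hk2 F hF hcl hc
  have hd0 : (0 : ℝ) < d := by
    have : 0 < d := by omega
    exact_mod_cast this
  have hn0 : 0 < n := by omega
  have hk : 0 < k := by
    have h1 : (0 : ℝ) < n := by exact_mod_cast hn0
    have h2 : (0 : ℝ) < k := lt_of_lt_of_le (by positivity) hk1
    exact_mod_cast h2
  have e1 : (1 + 1 / (d : ℝ)) * k + ζ * k = (((d : ℝ) + 1) / d + ζ) * k := by
    field_simp
  obtain ⟨x, hx⟩ := H n k hn hk1 hk2 F hF (by
    intro C hC1 hC2 hC3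
    have hC3' : ((Finset.univ.biUnion C).card : ℝ) ≤ (((d : ℝ) + 1) / d + ζ) * k := by
      rw [← e1]; exact hC3
    refine hcl C ?_ hC1 hC2 hC3'
    apply Pool.Agent.Lib.MP_b0b8df_co.tuple_injective hd hk hζd C (fun i => hF _ (hC1 i)) hC2
    refine hC3'.trans (le_of_eq ?_)
    field_simp) hc
  refine ⟨x, ?_⟩
  apply Finset.eq_of_subset_of_card_le
  · intro A hA
    rw [Finset.mem_filter, Finset.mem_powersetCard_univ]
    exact ⟨hF A hA, hx A hA⟩
  · rw [Pool.Agent.Lib.MP_b0b8df_co.card_star _ (Finset.mem_univ x) hk, Finset.card_univ,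
      Fintype.card_fin]
    exact hc

end Pool.Agent.Lib.MP_b0b8df_co.Lin
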